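import Pool.Agent.R296.RE.Top
import Pool.Agent.Y842.PH.Tri
import Pool.Agent.Y304.U.Avc
import Pool.Agent.Y304.U.Pw
import Pool.Agent.Y842.EL.One

set_option autoImplicit false

/-! # Proper homomorphisms to the line, spaces of continuous functions, the universal set of scales -/

namespace Pool.Agent.R296.RE

open Finset Filter Topology MeasureTheory
open Pool.Agent.Helper602.MK (ee)
open Pool.Agent.Helper602.MK.N_J1c (c_ee_add c_ee_int c_norm_ee)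
open Pool.Agent.Y842.PH Pool.Agent.Y842.CX

noncomputable section

lemma ell_prods {Y G : Type*} [Group G] (S : Y → Y) (φ : Y → G) (ℓ : G → ℝ) (hℓ : ∀ g h, ℓ (g * h) = ℓ g + ℓ h)
    (m : ℕ) (y : Y) : ℓ (prods S φ m y) = ∑ j ∈ range m, ℓ (φ (S^[j] y)) := by
  have h1 : ℓ 1 = 0 := by
    have := hℓ 1 1
    rw [mul_one] at this
    linarith
  induction m with
  | zero => simpa [prods] using h1
  | succ m ih =>
    rw [sum_range_succ, ← ih]
    show ℓ (φ (S^[m] y) * prods S φ m y) = _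
    rw [hℓ]; ring

/-- mean zero for a proper homomorphism to the line implies sublinear range -/
theorem sub_of_mean {Y G : Type*} [Group G] [TopologicalSpace G] (S : Y → Y) (φ : Y → G) (𝒴 : Set Y) (ℓ : G → ℝ)
    (hℓ : ∀ g h, ℓ (g * h) = ℓ g + ℓ h) (hp : IsCompact {g | |ℓ g| ≤ 1}) {M : ℝ} (hM : ∀ y, |ℓ (φ y)| ≤ M)
    (hmean : ∀ δ : ℝ, 0 < δ → ∃ H₀ : ℕ, ∀ H ≥ H₀, ∀ y ∈ 𝒴, ∀ n : ℕ,
      |∑ m ∈ range H, ℓ (φ (S^[n + m] y))| ≤ δ * H) : Sub S φ 𝒴 := by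
  refine ⟨{g | |ℓ g| ≤ 1}, hp, fun ε hε => ?_⟩
  obtain ⟨H₁, h1⟩ := hmean (ε / 8) (by positivity)
  obtain ⟨H₂, hH₂⟩ := exists_nat_ge (2 * (2 * (H₁ * |M|) + 5) / ε)
  refine ⟨H₂, fun H hH y hy n => ?_⟩
  classical
  have hM0 : 0 ≤ |M| := abs_nonneg M
  have hb : ∀ m < H, |ℓ (prods S φ m (S^[n] y))| ≤ ε / 8 * H + H₁ * |M| := by
    intro m hm
    rw [ell_prods S φ ℓ hℓ]
    have e : ∑ j ∈ range m, ℓ (φ (S^[j] (S^[n] y))) = ∑ j ∈ range m, ℓ (φ (S^[n + j] y)) :=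
      sum_congr rfl fun j _ => by rw [← Function.iterate_add_apply, add_comm j n]
    rw [e]
    have hmH : (m : ℝ) ≤ H := by exact_mod_cast hm.le
    rcases le_total H₁ m with h | h
    · have h2 := h1 m h y hy n
      have h3 : ε / 8 * m ≤ ε / 8 * H := mul_le_mul_of_nonneg_left hmH (by positivity)
      have h4 : 0 ≤ (H₁ : ℝ) * |M| := by positivity
      linarith
    · have h2 : |∑ j ∈ range m, ℓ (φ (S^[n + j] y))| ≤ m * |M| := by
        refine (abs_sum_le_sum_abs _ _).trans ?_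
        refine (sum_le_sum fun j _ => (hM _).trans (le_abs_self M)).trans ?_
        rw [sum_const, card_range, nsmul_eq_mul]
      have h3 : (m : ℝ) * |M| ≤ H₁ * |M| := mul_le_mul_of_nonneg_right (by exact_mod_cast h) hM0
      have h4 : 0 ≤ ε / 8 * H := by positivity
      linarith
  set w : ℕ → ℝ := fun m => ℓ (prods S φ m (S^[n] y)) with hw
  set I : Finset ℤ := (range H).image fun m => ⌊w m⌋ with hI
  have hch : ∀ k ∈ I, ∃ m < H, ⌊w m⌋ = k := fun k hk => by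
    obtain ⟨m, hm, h⟩ := mem_image.1 hk
    exact ⟨m, mem_range.1 hm, h⟩
  choose! t ht1 ht2 using hch
  refine ⟨I.image fun k => (prods S φ (t k) (S^[n] y))⁻¹, ?_, ?_⟩
  · set R : ℝ := ε / 8 * H + H₁ * |M| with hR
    have hR0 : 0 ≤ R := by positivity
    have hsub : I ⊆ Icc (-(⌈R⌉ + 1)) (⌈R⌉ + 1) := by
      intro k hk
      obtain ⟨m, hm, h⟩ := mem_image.1 hk
      have h2 := abs_le.1 (hb m (mem_range.1 hm))
      rw [mem_Icc, ← h]
      have h3 : R ≤ ⌈R⌉ := Int.le_ceil R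
      constructor
      · rw [Int.le_floor]
        push_cast
        linarith [h2.1]
      · have : (⌊w m⌋ : ℝ) ≤ w m := Int.floor_le _
        have h4 : (⌊w m⌋ : ℝ) ≤ ((⌈R⌉ + 1 : ℤ) : ℝ) := by
          push_cast
          linarith [h2.2]
        exact_mod_cast h4
    have h2 : (((I.image fun k => (prods S φ (t k) (S^[n] y))⁻¹).card : ℕ) : ℝ) ≤ 2 * R + 5 := by
      have h3 : (I.image fun k => (prods S φ (t k) (S^[n] y))⁻¹).card ≤ (Icc (-(⌈R⌉ + 1)) (⌈R⌉ + 1)).card :=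
        card_image_le.trans (card_le_card hsub)
      rw [Int.card_Icc] at h3
      have h4 : (((I.image fun k => (prods S φ (t k) (S^[n] y))⁻¹).card : ℕ) : ℝ) ≤
          (((⌈R⌉ + 1 + 1 - -(⌈R⌉ + 1)).toNat : ℕ) : ℝ) := by exact_mod_cast h3
      refine h4.trans ?_
      have h5 : 0 ≤ ⌈R⌉ := Int.ceil_nonneg hR0
      have h6 : (((⌈R⌉ + 1 + 1 - -(⌈R⌉ + 1)).toNat : ℕ) : ℝ) = ((⌈R⌉ + 1 + 1 - -(⌈R⌉ + 1) : ℤ) : ℝ) := by
        obtain ⟨q, hq⟩ := Int.eq_ofNat_of_zero_le (show 0 ≤ ⌈R⌉ + 1 + 1 - -(⌈R⌉ + 1) by omega)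
        rw [hq]
        simp
      rw [h6]
      push_cast
      have h7 : (⌈R⌉ : ℝ) < R + 1 := Int.ceil_lt_add_one R
      linarith
    refine h2.trans ?_
    have h8 : 2 * (2 * (H₁ * |M|) + 5) / ε ≤ H := hH₂.trans (by exact_mod_cast hH)
    rw [div_le_iff₀ hε] at h8
    rw [hR]
    linarith
  · intro m hm
    have hk : ⌊w m⌋ ∈ I := mem_image.2 ⟨m, mem_range.2 hm, rfl⟩
    refine ⟨_, mem_image.2 ⟨⌊w m⌋, hk, rfl⟩, ?_⟩
    show |ℓ (prods S φ m (S^[n] y) * (prods S φ (t ⌊w m⌋) (S^[n] y))⁻¹)| ≤ 1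
    have h1' : ∀ g, ℓ g⁻¹ = -ℓ g := by
      intro g
      have h2 := hℓ g g⁻¹
      have h3 := hℓ 1 1
      rw [mul_one] at h3
      rw [mul_inv_cancel] at h2
      linarith
    rw [hℓ, h1']
    have h2 := ht2 _ hk
    have h3 := Int.floor_le (w m)
    have h4 := Int.lt_floor_add_one (w m)
    have h5 := Int.floor_le (w (t ⌊w m⌋))
    have h6 := Int.lt_floor_add_one (w (t ⌊w m⌋))
    rw [h2] at h5 h6
    rw [abs_le]
    constructor
    · show -1 ≤ w m + -(w (t ⌊w m⌋))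
      linarith
    · show w m + -(w (t ⌊w m⌋)) ≤ 1
      linarith

section space

variable {G Z : Type*} [Group G] [TopologicalSpace G] [TopologicalSpace Z] [CompactSpace Z] [MulAction G Z]
  [ContinuousSMul G Z]

/-- the representation on the continuous functions -/
def cRep : Rep G C(Z, ℂ) where
  Q g :=
    { toFun := fun k => k.comp ⟨fun z => g • z, continuous_const_smul g⟩
      map_add' := fun _ _ => rfl
      map_smul' := fun _ _ => rfl }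
  le g k := by
    rw [ContinuousMap.norm_le _ (norm_nonneg _)]
    intro z
    exact k.norm_coe_le_norm _
  mul g h k := by
    ext z
    show k ((g * h) • z) = k (g • h • z)
    rw [mul_smul]
  cont k := by
    have h1 : Continuous fun p : G × Z => k (p.1 • p.2) := k.continuous.comp continuous_smul
    exact (ContinuousMap.curry ⟨_, h1⟩).continuous

lemma cRep_apply (g : G) (k : C(Z, ℂ)) (z : Z) : cRep.Q g k z = k (g • z) := rfl

end space

section final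

variable {Y G Z : Type} [TopologicalSpace Y] [CompactSpace Y] [Group G] [TopologicalSpace G] [IsTopologicalGroup G]
  [T2Space G] [LocallyCompactSpace G] [TopologicalSpace Z] [CompactSpace Z] [MulAction G Z] [ContinuousSMul G Z]

omit [TopologicalSpace Y] [CompactSpace Y] [TopologicalSpace G] [IsTopologicalGroup G]
  [T2Space G] [LocallyCompactSpace G] [TopologicalSpace Z] [CompactSpace Z] [ContinuousSMul G Z] in
lemma ext_iterate (S : Y → Y) (φ : Y → G) (y : Y) (z : Z) (n : ℕ) :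
    (fun x : Y × Z => (S x.1, φ x.1 • x.2))^[n] (y, z) = (S^[n] y, prods S φ n y • z) := by
  induction n with
  | zero => simp [prods]
  | succ n ih =>
    rw [Function.iterate_succ_apply', ih, Function.iterate_succ_apply']
    show (S (S^[n] y), φ (S^[n] y) • prods S φ n y • z) = (S (S^[n] y), (φ (S^[n] y) * prods S φ n y) • z)
    rw [mul_smul]

/-- the family of sequences of functions on `Z` -/
def fam (f : ℕ → ℤ) (S : Y → Y) (φ : Y → G) (𝒴 : Set Y) (F : C(Y × Z, ℂ)) : Set (ℕ → C(Z, ℂ)) :=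
  {b | ∃ y ∈ 𝒴, ∃ θ : ℝ, b = fun n => tw f θ n • cRep.Q (prods S φ n y) (F.curry (S^[n] y))}

theorem fam_three {f : ℕ → ℤ} (hb : ∀ n, |f n| ≤ 1) {E : Set ℕ} (hLZ : Pool.Agent.R296.SM.LDZ E)
    (hE : Kf f E) {S : Y → Y} (hS : Continuous S) {φ : Y → G} (hφ : Continuous φ) {𝒴 : Set Y}
    (hAP : ∀ c : C(Y, ℂ), UAP {b | ∃ y ∈ 𝒴, b = fun n => c (S^[n] y)}) (hR : Sub S φ 𝒴) (F : C(Y × Z, ℂ))
    (ε : ℝ) (hε : 0 < ε) :
    (∃ N₀ : ℕ, ∀ N ≥ N₀, N ∉ E → ∀ b ∈ fam f S φ 𝒴 F, ‖∑ n ∈ Icc 1 N, b n‖ ≤ ε * N) ∧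
    (∃ H₀ : ℕ, ∀ H ≥ H₀, ∃ N₀ : ℕ, ∀ N ≥ N₀, N ∉ E → ∀ b ∈ fam f S φ 𝒴 F,
      ∑ n ∈ Icc 1 N, ‖∑ m ∈ Icc 1 H, b (n + m)‖ ≤ ε * (H * N)) ∧
    ∃ N₀ : ℕ, ∀ N ≥ N₀, ∀ b ∈ fam f S φ 𝒴 F, ‖∑ n ∈ Icc 1 N, (1 / (n : ℂ)) • b n‖ ≤ ε * Real.log N := by
  refine three hLZ (C := ‖F.curry‖) ?_ (fun ε hε => ?_) ε hε
  · rintro _ ⟨y, _, θ, rfl⟩ n
    rw [norm_smul]
    calc ‖tw f θ n‖ * ‖cRep.Q (prods S φ n y) (F.curry (S^[n] y))‖ ≤ 1 * ‖F.curry‖ :=
          mul_le_mul (norm_tw hb θ n) ((cRep.le _ _).trans (F.curry.norm_coe_le_norm _)) (norm_nonneg _) zero_le_one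
      _ = _ := one_mul _
  · obtain ⟨H₀, h1⟩ := windows hb hE hS hφ hAP hR (cRep (G := G) (Z := Z)) F.curry.continuous ε hε
    refine ⟨H₀, fun H hH => ?_⟩
    obtain ⟨N₀, h2⟩ := h1 H hH
    refine ⟨N₀, ?_⟩
    rintro N hN hNE _ ⟨y, hy, θ, rfl⟩
    exact h2 N hN hNE y hy θ

end final

end

end Pool.Agent.R296.RE
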