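import Mathlib

set_option autoImplicit false

/-! # Continuous functions with compact support as vectors of L², partitions -/

namespace Pool.Agent.R296.RE

open Finset Filter Topology MeasureTheory
open scoped ENNReal InnerProductSpace

noncomputable section

/-- continuous, zero outside a compact set -/
def CS {G : Type*} [TopologicalSpace G] (g : G → ℂ) : Prop := Continuous g ∧ ∃ K : Set G, IsCompact K ∧ ∀ t ∉ K, g t = 0

section cs

variable {G : Type*} [TopologicalSpace G] [T2Space G]

lemma CS.hcs {g : G → ℂ} (h : CS g) : HasCompactSupport g := by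
  obtain ⟨K, hK, h0⟩ := h.2
  exact HasCompactSupport.intro hK h0

omit [T2Space G] in
lemma CS.zero : CS (fun _ : G => (0 : ℂ)) := ⟨continuous_const, ∅, isCompact_empty, fun _ _ => rfl⟩

omit [T2Space G] in
lemma CS.add {g g' : G → ℂ} (h : CS g) (h' : CS g') : CS (fun t => g t + g' t) := by
  obtain ⟨K, hK, h0⟩ := h.2
  obtain ⟨K', hK', h0'⟩ := h'.2
  refine ⟨h.1.add h'.1, K ∪ K', hK.union hK', fun t ht => ?_⟩
  show g t + g' t = 0
  rw [h0 t (fun h => ht (Or.inl h)), h0' t (fun h => ht (Or.inr h)), add_zero]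

omit [T2Space G] in
lemma CS.mul {g g' : G → ℂ} (h : CS g) (h' : Continuous g') : CS (fun t => g t * g' t) := by
  obtain ⟨K, hK, h0⟩ := h.2
  refine ⟨h.1.mul h', K, hK, fun t ht => ?_⟩
  show g t * g' t = 0
  rw [h0 t ht, zero_mul]

omit [T2Space G] in
lemma CS.smul {g : G → ℂ} (h : CS g) (c : ℂ) : CS (fun t => c * g t) := by
  obtain ⟨K, hK, h0⟩ := h.2
  refine ⟨continuous_const.mul h.1, K, hK, fun t ht => ?_⟩
  show c * g t = 0
  rw [h0 t ht, mul_zero]

omit [T2Space G] in
lemma CS.sum {ι : Type*} (s : Finset ι) {g : ι → G → ℂ} (h : ∀ i ∈ s, CS (g i)) : CS (fun t => ∑ i ∈ s, g i t) := by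
  classical
  induction s using Finset.induction_on with
  | empty => simpa using CS.zero
  | insert i s hi ih =>
    have := (h i (mem_insert_self i s)).add (ih fun j hj => h j (mem_insert_of_mem hj))
    simpa [sum_insert hi] using this

variable [MeasurableSpace G] [BorelSpace G] {ν : Measure G} [IsFiniteMeasureOnCompacts ν]

lemma CS.int {g : G → ℂ} (h : CS g) : Integrable g ν := h.1.integrable_of_hasCompactSupport h.hcs

lemma CS.memLp {g : G → ℂ} (h : CS g) : MemLp g 2 ν := h.1.memLp_of_hasCompactSupport h.hcs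

variable (ν) in
open Classical in
/-- the vector of L² -/
def emb (g : G → ℂ) : Lp ℂ 2 ν := if h : MemLp g 2 ν then h.toLp g else 0

lemma emb_coe {g : G → ℂ} (h : CS g) : (emb ν g : G → ℂ) =ᵐ[ν] g := by
  have h1 : MemLp g 2 ν := h.memLp
  rw [emb, dif_pos h1]
  exact h1.coeFn_toLp

lemma emb_inner {g g' : G → ℂ} (h : CS g) (h' : CS g') :
    ⟪emb ν g, emb ν g'⟫_ℂ = ∫ t, (starRingEnd ℂ) (g t) * g' t ∂ν := by
  rw [L2.inner_def]
  apply integral_congr_ae
  filter_upwards [emb_coe h, emb_coe h'] with t h1 h2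
  rw [h1, h2, RCLike.inner_apply, mul_comm]

lemma emb_norm {g : G → ℂ} (h : CS g) : ‖emb ν g‖ ^ 2 = ∫ t, ‖g t‖ ^ 2 ∂ν := by
  have h1 := emb_inner (ν := ν) h h
  rw [inner_self_eq_norm_sq_to_K] at h1
  have h2 : ∫ t, (starRingEnd ℂ) (g t) * g t ∂ν = ((∫ t, ‖g t‖ ^ 2 ∂ν : ℝ) : ℂ) := by
    rw [← integral_complex_ofReal]
    refine integral_congr_ae (Eventually.of_forall fun t => ?_)
    show (starRingEnd ℂ) (g t) * g t = _
    rw [mul_comm, Complex.mul_conj, Complex.normSq_eq_norm_sq]
  rw [h2] at h1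
  have h3 : ((‖emb ν g‖ ^ 2 : ℝ) : ℂ) = ((∫ t, ‖g t‖ ^ 2 ∂ν : ℝ) : ℂ) := by
    rw [← h1]
    push_cast
    rfl
  exact Complex.ofReal_injective h3

lemma emb_add {g g' : G → ℂ} (h : CS g) (h' : CS g') : emb ν (fun t => g t + g' t) = emb ν g + emb ν g' := by
  apply Lp.ext
  filter_upwards [emb_coe (ν := ν) (h.add h'), emb_coe (ν := ν) h, emb_coe (ν := ν) h',
    Lp.coeFn_add (emb ν g) (emb ν g')] with t h1 h2 h3 h4
  rw [h1, h4, Pi.add_apply, h2, h3]

lemma emb_smul {g : G → ℂ} (h : CS g) (c : ℂ) : emb ν (fun t => c * g t) = c • emb ν g := by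
  apply Lp.ext
  filter_upwards [emb_coe (ν := ν) (h.smul c), emb_coe (ν := ν) h, Lp.coeFn_smul c (emb ν g)] with t h1 h2 h4
  rw [h1, h4, Pi.smul_apply, h2, smul_eq_mul]

lemma emb_zero : emb ν (fun _ => (0 : ℂ)) = 0 := by
  have h := emb_smul (ν := ν) (CS.zero (G := G)) 0
  rw [zero_smul] at h
  simpa using h

lemma emb_sum {ι : Type*} (s : Finset ι) {g : ι → G → ℂ} (c : ι → ℂ) (h : ∀ i ∈ s, CS (g i)) :
    emb ν (fun t => ∑ i ∈ s, c i * g i t) = ∑ i ∈ s, c i • emb ν (g i) := by
  classical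
  induction s using Finset.induction_on with
  | empty => simpa using emb_zero
  | insert i s hi ih =>
    rw [sum_insert hi]
    have e : (fun t => ∑ j ∈ insert i s, c j * g j t) = fun t => c i * g i t + ∑ j ∈ s, c j * g j t := by
      funext t
      rw [sum_insert hi]
    rw [e, emb_add ((h i (mem_insert_self i s)).smul (c i))
      (CS.sum s fun j hj => (h j (mem_insert_of_mem hj)).smul (c j)), emb_smul (h i (mem_insert_self i s)),
      ih fun j hj => h j (mem_insert_of_mem hj)]

/-- the elementary form of the inequality of Cauchy and Schwarz -/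
lemma int_le {g h : G → ℂ} (hg : CS g) {M : ℝ} (hM : ∀ t, ‖h t‖ ≤ M) {U : Set G}
    (hU : MeasurableSet U) (hUf : ν U ≠ ∞) (hgU : ∀ t ∉ U, g t = 0) {c : ℝ} (hc : 0 < c) :
    ‖∫ t, g t * h t ∂ν‖ ≤ M * (1 / (2 * c) * ‖emb ν g‖ ^ 2 + c / 2 * ν.real U) := by
  have hM0 : 0 ≤ M ∨ IsEmpty G := by
    by_cases hne : Nonempty G
    · obtain ⟨t⟩ := hne
      exact Or.inl ((norm_nonneg _).trans (hM t))
    · exact Or.inr (not_nonempty_iff.1 hne)
  rcases hM0 with hM0 | hemp
  swap
  · have h1 : ν = 0 := by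
      ext s _
      rw [Set.eq_empty_of_isEmpty s]
      simp
    subst h1
    have h2 : emb (0 : Measure G) g = 0 := by
      have := emb_norm (ν := (0 : Measure G)) hg
      simp only [integral_zero_measure] at this
      exact norm_eq_zero.1 (by nlinarith [norm_nonneg (emb (0 : Measure G) g)])
    rw [h2]
    simp
  rw [emb_norm hg]
  have i1 : Integrable (fun t => ‖g t‖ ^ 2) ν := by
    have := (hg.memLp (ν := ν)).integrable_norm_pow (p := 2) (by norm_num)
    simpa using this
  have i2 : Integrable (fun t => U.indicator (fun _ => (1 : ℝ)) t) ν :=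
    (integrable_indicator_iff hU).2 (integrableOn_const hUf)
  have i3 : ∫ t, U.indicator (fun _ => (1 : ℝ)) t ∂ν = ν.real U := by
    rw [integral_indicator hU]
    simp
  rw [← i3, ← integral_const_mul, ← integral_const_mul, ← integral_add (i1.const_mul _) (i2.const_mul _),
    ← integral_const_mul]
  refine norm_integral_le_of_norm_le (((i1.const_mul _).add (i2.const_mul _)).const_mul M)
    (Eventually.of_forall fun t => ?_)
  rw [norm_mul, mul_comm]
  have h1 : ‖g t‖ ≤ 1 / (2 * c) * ‖g t‖ ^ 2 + c / 2 * U.indicator (fun _ => (1 : ℝ)) t := by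
    by_cases ht : t ∈ U
    · rw [Set.indicator_of_mem ht, mul_one]
      have h2 : 0 ≤ 1 / (2 * c) * (‖g t‖ - c) ^ 2 := by positivity
      have h3 : 1 / (2 * c) * (‖g t‖ - c) ^ 2 = 1 / (2 * c) * ‖g t‖ ^ 2 - ‖g t‖ + c / 2 := by
        field_simp
        ring
      linarith
    · rw [hgU t ht, Set.indicator_of_notMem ht]
      simp
  exact mul_le_mul (hM t) h1 (norm_nonneg _) hM0

end cs

/-- partitions: a continuous map on a compact set is approximated by finite sums -/
lemma approx {P : Type*} [TopologicalSpace P] {B : Type*} [NormedAddCommGroup B] [NormedSpace ℝ B] {Φ : P → B}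
    (hΦ : Continuous Φ) {K : Set P} (hK : IsCompact K) {β : P → ℝ} (hβ : Continuous β) (hβ0 : ∀ p, 0 ≤ β p)
    (hβK : ∀ p ∉ K, β p = 0) (ε : ℝ) (hε : 0 < ε) : ∃ (s : Finset B) (a : B → P → ℝ),
      (∀ x, Continuous (a x)) ∧ (∀ x p, 0 ≤ a x p ∧ a x p ≤ β p) ∧
      ∀ p, ‖β p • Φ p - ∑ x ∈ s, a x p • x‖ ≤ ε * β p := by
  classical
  obtain ⟨t, -, htf, ht⟩ := finite_cover_balls_of_compact (hK.image hΦ) (show 0 < ε / 2 by positivity)
  set s : Finset B := htf.toFinset with hs
  set w : B → P → ℝ := fun x p => max 0 (ε - ‖Φ p - x‖) with hw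
  set q : P → ℝ := fun p => ∑ x ∈ s, w x p with hq
  have hw0 : ∀ x p, 0 ≤ w x p := fun x p => le_max_left _ _
  have hwc : ∀ x, Continuous (w x) := fun x =>
    continuous_const.max (continuous_const.sub (hΦ.sub continuous_const).norm)
  have hqc : Continuous q := continuous_finsetSum s fun x _ => hwc x
  have hq0 : ∀ p ∈ K, ε / 2 ≤ q p := by
    intro p hp
    have h1 := ht (Set.mem_image_of_mem Φ hp)
    rw [Set.mem_iUnion₂] at h1
    obtain ⟨x, hx, h2⟩ := h1
    rw [Metric.mem_ball, dist_eq_norm] at h2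
    have h3 : w x p ≤ q p := single_le_sum (f := fun x => w x p) (fun x _ => hw0 x p) (htf.mem_toFinset.2 hx)
    have h4 : ε - ‖Φ p - x‖ ≤ w x p := le_max_right _ _
    linarith
  set m : P → ℝ := fun p => max (q p) (ε / 2) with hm
  have hm0 : ∀ p, 0 < m p := fun p => lt_of_lt_of_le (by positivity) (le_max_right _ _)
  have hmc : Continuous m := hqc.max continuous_const
  -- the functions of s; outside of s we take 0
  refine ⟨s, fun x p => if x ∈ s then β p * w x p / m p else 0, fun x => ?_, fun x p => ?_, fun p => ?_⟩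
  · by_cases hx : x ∈ s
    · simp only [if_pos hx]
      exact (hβ.mul (hwc x)).div hmc fun p => (hm0 p).ne'
    · simp only [if_neg hx]
      exact continuous_const
  · by_cases hx : x ∈ s
    · simp only [if_pos hx]
      refine ⟨div_nonneg (mul_nonneg (hβ0 p) (hw0 x p)) (hm0 p).le, ?_⟩
      rw [div_le_iff₀ (hm0 p)]
      apply mul_le_mul_of_nonneg_left _ (hβ0 p)
      exact (single_le_sum (f := fun x => w x p) (fun x _ => hw0 x p) hx).trans (le_max_left _ _)
    · simp only [if_neg hx]
      exact ⟨le_rfl, hβ0 p⟩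
  · by_cases hp : β p = 0
    · simp [hp]
    · have hpK : p ∈ K := by
        by_contra h
        exact hp (hβK p h)
      have e1 : ∑ x ∈ s, (if x ∈ s then β p * w x p / m p else 0) • x = ∑ x ∈ s, (β p * w x p / m p) • x :=
        sum_congr rfl fun x hx => by rw [if_pos hx]
      have e2 : β p = ∑ x ∈ s, β p * w x p / m p := by
        rw [← sum_div, ← mul_sum]
        have : m p = q p := max_eq_left (hq0 p hpK)
        rw [this]
        show β p = β p * q p / q p
        rw [mul_div_assoc, div_self (by linarith [hq0 p hpK]), mul_one]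
      have e3 : β p • Φ p = ∑ x ∈ s, (β p * w x p / m p) • Φ p := by
        rw [← sum_smul, ← e2]
      simp only [e1]
      rw [e3, ← sum_sub_distrib]
      refine (norm_sum_le _ _).trans ?_
      calc ∑ x ∈ s, ‖(β p * w x p / m p) • Φ p - (β p * w x p / m p) • x‖
          ≤ ∑ x ∈ s, (β p * w x p / m p) * ε := by
            refine sum_le_sum fun x _ => ?_
            have h0 : 0 ≤ β p * w x p / m p := div_nonneg (mul_nonneg (hβ0 p) (hw0 x p)) (hm0 p).le
            rw [← smul_sub, norm_smul, Real.norm_of_nonneg h0]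
            by_cases hx : ‖Φ p - x‖ ≤ ε
            · exact mul_le_mul_of_nonneg_left hx h0
            · have : w x p = 0 := max_eq_left (by linarith)
              rw [this]
              simp
        _ = ε * β p := by rw [← sum_mul, ← e2, mul_comm]

end

end Pool.Agent.R296.RE
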