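import Pool.Agent.R296.RE.Kill
import Pool.Agent.R296.RE.Emb

set_option autoImplicit false

/-! # Cocycles with values in a locally compact group and sublinear range -/

namespace Pool.Agent.R296.RE

open Finset Filter Topology MeasureTheory
open scoped ENNReal InnerProductSpace Pointwise

noncomputable section

/-- the products `φ(S^(n-1) y) ⋯ φ(y)` -/
def prods {Y G : Type*} [Group G] (S : Y → Y) (φ : Y → G) : ℕ → Y → G
  | 0, _ => 1
  | n + 1, y => φ (S^[n] y) * prods S φ n y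

lemma prods_add {Y G : Type*} [Group G] (S : Y → Y) (φ : Y → G) (n k : ℕ) (y : Y) :
    prods S φ (n + k) y = prods S φ k (S^[n] y) * prods S φ n y := by
  induction k with
  | zero => simp [prods]
  | succ k ih =>
    rw [← add_assoc]
    show φ (S^[n + k] y) * prods S φ (n + k) y = φ (S^[k] (S^[n] y)) * prods S φ k (S^[n] y) * prods S φ n y
    rw [ih, mul_assoc, ← Function.iterate_add_apply, add_comm k n]

lemma prods_cont {Y G : Type*} [TopologicalSpace Y] [TopologicalSpace G] [Group G] [IsTopologicalGroup G]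
    {S : Y → Y} (hS : Continuous S) {φ : Y → G} (hφ : Continuous φ) (n : ℕ) : Continuous (prods S φ n) := by
  induction n with
  | zero => exact continuous_const
  | succ n ih => exact (hφ.comp (hS.iterate n)).mul ih

/-- the range of the cocycle is sublinear along the orbits of the points of `𝒴`: for some compact set `K` the
products `φ(S^(n+m-1) y) ⋯ φ(S^n y)`, `m < H`, are covered by `ε H` translates of `K`, for all `n` -/
def Sub {Y G : Type*} [Group G] [TopologicalSpace G] (S : Y → Y) (φ : Y → G) (𝒴 : Set Y) : Prop :=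
  ∃ K : Set G, IsCompact K ∧ ∀ ε : ℝ, 0 < ε → ∃ H₀ : ℕ, ∀ H ≥ H₀, ∀ y ∈ 𝒴, ∀ n : ℕ,
    ∃ A : Finset G, (A.card : ℝ) ≤ ε * H ∧ ∀ m < H, ∃ g ∈ A, prods S φ m (S^[n] y) * g ∈ K

/-- strongly continuous contractive (anti)representations -/
structure Rep (G B : Type*) [Group G] [TopologicalSpace G] [NormedAddCommGroup B] [NormedSpace ℂ B] where
  Q : G → B →ₗ[ℂ] B
  le : ∀ g x, ‖Q g x‖ ≤ ‖x‖
  mul : ∀ g h x, Q (g * h) x = Q h (Q g x)
  cont : ∀ x, Continuous fun g => Q g x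

section

variable {Y G B : Type*} [TopologicalSpace Y] [Group G] [TopologicalSpace G] [NormedAddCommGroup B] [NormedSpace ℂ B]

lemma Rep.cont2 (R : Rep G B) {F : Y → B} (hF : Continuous F) : Continuous fun p : Y × G => R.Q p.2 (F p.1) := by
  rw [continuous_iff_continuousAt]
  rintro ⟨y₀, g₀⟩
  unfold ContinuousAt
  rw [tendsto_iff_norm_sub_tendsto_zero]
  have h1 : Tendsto (fun p : Y × G => ‖F p.1 - F y₀‖ + ‖R.Q p.2 (F y₀) - R.Q g₀ (F y₀)‖) (𝓝 (y₀, g₀)) (𝓝 (0 + 0)) := by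
    apply Tendsto.add
    · have : Continuous fun p : Y × G => ‖F p.1 - F y₀‖ := ((hF.comp continuous_fst).sub continuous_const).norm
      have h := this.tendsto (y₀, g₀)
      simpa using h
    · have : Continuous fun p : Y × G => ‖R.Q p.2 (F y₀) - R.Q g₀ (F y₀)‖ :=
        (((R.cont (F y₀)).comp continuous_snd).sub continuous_const).norm
      have h := this.tendsto (y₀, g₀)
      simpa using h
  rw [add_zero] at h1
  refine squeeze_zero (fun _ => norm_nonneg _) (fun p => ?_) h1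
  have e : R.Q p.2 (F p.1) - R.Q g₀ (F y₀) = R.Q p.2 (F p.1 - F y₀) + (R.Q p.2 (F y₀) - R.Q g₀ (F y₀)) := by
    rw [map_sub]; abel
  show ‖R.Q p.2 (F p.1) - R.Q g₀ (F y₀)‖ ≤ _
  rw [e]
  exact (norm_add_le _ _).trans (add_le_add (R.le _ _) le_rfl)

end

section

variable {Y G : Type*} [TopologicalSpace Y] [Group G] [TopologicalSpace G] [IsTopologicalGroup G] [T2Space G]

/-- the function `t ↦ a(S^m y, φ(S^(m-1) y) ⋯ φ(y) t)` -/
def vv (S : Y → Y) (φ : Y → G) (a : Y × G → ℝ) (y : Y) (m : ℕ) (t : G) : ℂ := (a (S^[m] y, prods S φ m y * t) : ℂ)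

omit [TopologicalSpace Y] [TopologicalSpace G] [IsTopologicalGroup G] [T2Space G] in
lemma vv_smul (S : Y → Y) (φ : Y → G) (a : Y × G → ℝ) (D : ℝ) (y : Y) (m : ℕ) (t : G) :
    vv S φ (fun p => D * a p) y m t = D * vv S φ a y m t := by
  unfold vv
  push_cast
  rfl

omit [T2Space G] in
lemma vv_CS (S : Y → Y) (φ : Y → G) {a : Y × G → ℝ} (ha : Continuous a) {K₀ : Set G} (hK₀ : IsCompact K₀)
    (haK : ∀ y, ∀ g ∉ K₀, a (y, g) = 0) (y : Y) (m : ℕ) : CS (vv S φ a y m) := by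
  refine ⟨?_, (fun t => (prods S φ m y)⁻¹ * t) '' K₀, hK₀.image (continuous_const.mul continuous_id), fun t ht => ?_⟩
  · unfold vv
    have : Continuous fun t : G => (S^[m] y, prods S φ m y * t) :=
      continuous_const.prodMk (continuous_const.mul continuous_id)
    exact Complex.continuous_ofReal.comp (ha.comp this)
  · unfold vv
    rw [haK, Complex.ofReal_zero]
    intro h
    exact ht ⟨_, h, by group⟩

variable [MeasurableSpace G] [BorelSpace G] {ν : Measure G} [IsFiniteMeasureOnCompacts ν] [ν.IsMulLeftInvariant]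

/-- the inner products are functions of the base point -/
lemma kernel {S : Y → Y} (hS : Continuous S) {φ : Y → G} (hφ : Continuous φ) {a : Y × G → ℝ} (ha : Continuous a)
    {K₀ : Set G} (hK₀ : IsCompact K₀) (haK : ∀ y, ∀ g ∉ K₀, a (y, g) = 0) (k : ℕ) :
    ∃ κ : C(Y, ℂ), ∀ y n, ⟪emb ν (vv S φ a y n), emb ν (vv S φ a y (n + k))⟫_ℂ = κ (S^[n] y) := by
  have hc : Continuous fun y : Y => ∫ t, (starRingEnd ℂ) (a (y, t) : ℂ) * (a (S^[k] y, prods S φ k y * t) : ℂ) ∂ν := by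
    rw [← continuousOn_univ]
    apply continuousOn_integral_of_compact_support hK₀
    · have h1 : Continuous (prods S φ k) := prods_cont hS hφ k
      have h2 : Continuous S^[k] := hS.iterate k
      show ContinuousOn (fun q : Y × G => (starRingEnd ℂ) (a (q.1, q.2) : ℂ) *
        (a (S^[k] q.1, prods S φ k q.1 * q.2) : ℂ)) _
      apply Continuous.continuousOn
      have h3 : Continuous fun q : Y × G => a (S^[k] q.1, prods S φ k q.1 * q.2) :=
        ha.comp ((h2.comp continuous_fst).prodMk ((h1.comp continuous_fst).mul continuous_snd))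
      have h4 : Continuous fun q : Y × G => a (q.1, q.2) := ha
      exact (continuous_star.comp (Complex.continuous_ofReal.comp h4)).mul (Complex.continuous_ofReal.comp h3)
    · intro y t _ ht
      rw [haK y t ht]
      simp
  refine ⟨⟨_, hc⟩, fun y n => ?_⟩
  rw [emb_inner (vv_CS S φ ha hK₀ haK y n) (vv_CS S φ ha hK₀ haK y (n + k))]
  rw [← integral_mul_left_eq_self (μ := ν) _ (prods S φ n y)⁻¹]
  show _ = ∫ t, (starRingEnd ℂ) (a (S^[n] y, t) : ℂ) * (a (S^[k] (S^[n] y), prods S φ k (S^[n] y) * t) : ℂ) ∂ν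
  congr 1
  funext t
  unfold vv
  rw [prods_add]
  have e1 : prods S φ n y * ((prods S φ n y)⁻¹ * t) = t := by group
  have e2 : prods S φ k (S^[n] y) * prods S φ n y * ((prods S φ n y)⁻¹ * t) = prods S φ k (S^[n] y) * t := by group
  rw [e1, e2, ← Function.iterate_add_apply, add_comm k n]

omit [TopologicalSpace Y] in
/-- the pointwise bound for a finite sum -/
lemma window_le {B : Type*} [NormedAddCommGroup B] [NormedSpace ℂ B] (R : Rep G B) (F : Y → B) (S : Y → Y) (φ : Y → G)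
    {β : G → ℝ} (hβ : Continuous β) {K₀ : Set G} (hK₀ : IsCompact K₀) (hβ0 : ∀ g, 0 ≤ β g) (hβK : ∀ g ∉ K₀, β g = 0)
    (hβ1 : ∫ g, β g ∂ν = 1) {ε : ℝ} (s : Finset B) (a : B → Y × G → ℝ)
    (hac : ∀ x y m, CS (vv S φ (a x) y m))
    (ha : ∀ x y, ∀ g ∉ K₀, a x (y, g) = 0)
    (hap : ∀ p : Y × G, ‖β p.2 • R.Q p.2 (F p.1) - ∑ x ∈ s, a x p • x‖ ≤ ε * β p.2)
    (M : Finset ℕ) (w : ℕ → ℂ) (hw : ∀ m, ‖w m‖ ≤ 1) (y : Y) {U : Set G} (hU : MeasurableSet U) (hUf : ν U ≠ ∞)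
    (hMU : ∀ m ∈ M, ∀ t, prods S φ m y * t ∈ K₀ → t ∈ U) {c : ℝ} (hc : 0 < c) :
    ‖∑ m ∈ M, w m • R.Q (prods S φ m y) (F (S^[m] y))‖ ≤
      ∑ x ∈ s, ‖x‖ * (1 / (2 * c) * ‖∑ m ∈ M, w m • emb ν (vv S φ (a x) y m)‖ ^ 2 + c / 2 * ν.real U) + ε * M.card := by
  set T : ℝ := ∑ x ∈ s, ‖x‖ * (1 / (2 * c) * ‖∑ m ∈ M, w m • emb ν (vv S φ (a x) y m)‖ ^ 2 + c / 2 * ν.real U) +
    ε * M.card with hT
  have hT0 : 0 ≤ T := by
    have hε0 : 0 ≤ ε := by
      by_contra hneg
      push Not at hneg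
      obtain ⟨g, hg⟩ : ∃ g, β g ≠ 0 := by
        by_contra hcon
        push Not at hcon
        simp [hcon] at hβ1
      have h1 := (norm_nonneg _).trans (hap (y, g))
      have h2 : 0 < β g := lt_of_le_of_ne (hβ0 g) (Ne.symm hg)
      have h3 : ε * β g < 0 := mul_neg_of_neg_of_pos hneg h2
      exact absurd h1 (not_le.2 h3)
    have : 0 ≤ ν.real U := measureReal_nonneg
    have h1 : 0 ≤ ∑ x ∈ s, ‖x‖ * (1 / (2 * c) * ‖∑ m ∈ M, w m • emb ν (vv S φ (a x) y m)‖ ^ 2 + c / 2 * ν.real U) :=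
      sum_nonneg fun x _ => by positivity
    have h2 : 0 ≤ ε * M.card := by positivity
    linarith
  refine NormedSpace.norm_le_dual_bound ℂ _ hT0 fun ρ => ?_
  -- the coefficient functions
  set h : B → G → ℂ := fun x t => ρ (R.Q t⁻¹ x) with hh
  have hhc : ∀ x, Continuous (h x) := fun x => ρ.continuous.comp ((R.cont x).comp continuous_inv)
  have hhb : ∀ x t, ‖h x t‖ ≤ ‖ρ‖ * ‖x‖ := fun x t =>
    (ρ.le_opNorm _).trans (mul_le_mul_of_nonneg_left (R.le _ _) (norm_nonneg _))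
  have hβi : ∀ g₀ : G, ∫ t, β (g₀ * t) ∂ν = 1 := fun g₀ => by
    rw [integral_mul_left_eq_self (μ := ν) β g₀, hβ1]
  have hβint : ∀ g₀ : G, Integrable (fun t => β (g₀ * t)) ν := by
    intro g₀
    refine Continuous.integrable_of_hasCompactSupport (hβ.comp (continuous_const.mul continuous_id)) ?_
    refine HasCompactSupport.intro (K := (fun t => g₀⁻¹ * t) '' K₀) (hK₀.image (continuous_const.mul continuous_id))
      fun t ht => hβK _ fun h => ht ⟨_, h, by group⟩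
  have h1 : ∀ m, ‖ρ (R.Q (prods S φ m y) (F (S^[m] y))) - ∫ t, ∑ x ∈ s, vv S φ (a x) y m t * h x t ∂ν‖ ≤ ‖ρ‖ * ε := by
    intro m
    set X : B := R.Q (prods S φ m y) (F (S^[m] y)) with hX
    have e1 : ρ X = ∫ t, (β (prods S φ m y * t) : ℂ) * ρ X ∂ν := by
      rw [integral_mul_const]
      have : ∫ t, (β (prods S φ m y * t) : ℂ) ∂ν = 1 := by
        rw [integral_complex_ofReal, hβi, Complex.ofReal_one]
      rw [this, one_mul]
    have i1 : Integrable (fun t => (β (prods S φ m y * t) : ℂ) * ρ X) ν := ((hβint _).ofReal).mul_const _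
    have i2 : Integrable (fun t => ∑ x ∈ s, vv S φ (a x) y m t * h x t) ν :=
      (CS.sum s fun x _ => (hac x y m).mul (hhc x)).int
    rw [e1, ← integral_sub i1 i2]
    have e2 : ‖ρ‖ * ε = ∫ t, ‖ρ‖ * ε * β (prods S φ m y * t) ∂ν := by
      rw [integral_const_mul, hβi, mul_one]
    rw [e2]
    refine norm_integral_le_of_norm_le ((hβint _).const_mul _) (Eventually.of_forall fun t => ?_)
    have e3 : (β (prods S φ m y * t) : ℂ) * ρ X - ∑ x ∈ s, vv S φ (a x) y m t * h x t =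
        ρ (R.Q t⁻¹ (β (prods S φ m y * t) • R.Q (prods S φ m y * t) (F (S^[m] y)) -
          ∑ x ∈ s, a x (S^[m] y, prods S φ m y * t) • x)) := by
      have e4 : R.Q t⁻¹ (R.Q (prods S φ m y * t) (F (S^[m] y))) = X := by
        rw [← R.mul, mul_inv_cancel_right]
      have e5 : ∀ (r : ℝ) (x : B), R.Q t⁻¹ (r • x) = (r : ℂ) • R.Q t⁻¹ x := by
        intro r x
        rw [← map_smul]
        congr 1
      rw [map_sub, map_sub, e5, e4, map_sum, map_sum, map_smul, smul_eq_mul]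
      congr 1
      refine sum_congr rfl fun x _ => ?_
      rw [e5, map_smul, smul_eq_mul]
      rfl
    rw [e3]
    refine (ρ.le_opNorm _).trans ?_
    rw [mul_assoc]
    refine mul_le_mul_of_nonneg_left ((R.le _ _).trans ?_) (norm_nonneg _)
    exact hap (S^[m] y, prods S φ m y * t)
  have h2 : ‖∑ m ∈ M, w m * ρ (R.Q (prods S φ m y) (F (S^[m] y))) -
      ∑ m ∈ M, w m * ∫ t, ∑ x ∈ s, vv S φ (a x) y m t * h x t ∂ν‖ ≤ ‖ρ‖ * (ε * M.card) := by
    rw [← sum_sub_distrib]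
    refine (norm_sum_le _ _).trans ?_
    calc _ ≤ ∑ _m ∈ M, ‖ρ‖ * ε := by
          refine sum_le_sum fun m _ => ?_
          rw [← mul_sub, norm_mul]
          calc _ ≤ 1 * (‖ρ‖ * ε) := mul_le_mul (hw m) (h1 m) (norm_nonneg _) zero_le_one
            _ = _ := one_mul _
      _ = _ := by rw [sum_const, nsmul_eq_mul]; ring
  have h3 : ∑ m ∈ M, w m * ∫ t, ∑ x ∈ s, vv S φ (a x) y m t * h x t ∂ν =
      ∑ x ∈ s, ∫ t, (∑ m ∈ M, w m * vv S φ (a x) y m t) * h x t ∂ν := by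
    have e1 : ∀ m ∈ M, w m * ∫ t, ∑ x ∈ s, vv S φ (a x) y m t * h x t ∂ν =
        ∑ x ∈ s, ∫ t, w m * (vv S φ (a x) y m t * h x t) ∂ν := by
      intro m _
      rw [integral_finsetSum s fun x _ => ((hac x y m).mul (hhc x)).int, mul_sum]
      exact sum_congr rfl fun x _ => (integral_const_mul _ _).symm
    rw [sum_congr rfl e1, sum_comm]
    refine sum_congr rfl fun x _ => ?_
    rw [← integral_finsetSum M fun m _ => (((hac x y m).mul (hhc x)).smul (w m)).int]
    congr 1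
    funext t
    rw [sum_mul]
    exact sum_congr rfl fun m _ => by ring
  have h4 : ∀ x ∈ s, ‖∫ t, (∑ m ∈ M, w m * vv S φ (a x) y m t) * h x t ∂ν‖ ≤
      ‖ρ‖ * ‖x‖ * (1 / (2 * c) * ‖∑ m ∈ M, w m • emb ν (vv S φ (a x) y m)‖ ^ 2 + c / 2 * ν.real U) := by
    intro x _
    have h5 := int_le (ν := ν) (g := fun t => ∑ m ∈ M, w m * vv S φ (a x) y m t) (h := h x)
      (CS.sum M fun m _ => (hac x y m).smul (w m)) (hhb x) hU hUf (fun t ht => by
        refine sum_eq_zero fun m hm => ?_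
        have : vv S φ (a x) y m t = 0 := by
          unfold vv
          rw [ha, Complex.ofReal_zero]
          intro hcon
          exact ht (hMU m hm t hcon)
        rw [this, mul_zero]) hc
    rw [emb_sum M w fun m _ => hac x y m] at h5
    exact h5
  rw [map_sum]
  have e6 : ∑ m ∈ M, ρ (w m • R.Q (prods S φ m y) (F (S^[m] y))) =
      ∑ m ∈ M, w m * ρ (R.Q (prods S φ m y) (F (S^[m] y))) :=
    sum_congr rfl fun m _ => by rw [map_smul, smul_eq_mul]
  rw [e6]
  have h5 : ‖∑ m ∈ M, w m * ∫ t, ∑ x ∈ s, vv S φ (a x) y m t * h x t ∂ν‖ ≤ ‖ρ‖ *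
      ∑ x ∈ s, ‖x‖ * (1 / (2 * c) * ‖∑ m ∈ M, w m • emb ν (vv S φ (a x) y m)‖ ^ 2 + c / 2 * ν.real U) := by
    rw [h3, mul_sum]
    refine (norm_sum_le _ _).trans (sum_le_sum fun x hx => (h4 x hx).trans (le_of_eq (by ring)))
  have h6 := norm_add_le (∑ m ∈ M, w m * ρ (R.Q (prods S φ m y) (F (S^[m] y))) -
      ∑ m ∈ M, w m * ∫ t, ∑ x ∈ s, vv S φ (a x) y m t * h x t ∂ν) (∑ m ∈ M, w m * ∫ t, ∑ x ∈ s, vv S φ (a x) y m t * h x t ∂ν)
  rw [sub_add_cancel] at h6
  rw [hT]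
  calc _ ≤ _ := h6
    _ ≤ ‖ρ‖ * (ε * M.card) + ‖ρ‖ *
      ∑ x ∈ s, ‖x‖ * (1 / (2 * c) * ‖∑ m ∈ M, w m • emb ν (vv S φ (a x) y m)‖ ^ 2 + c / 2 * ν.real U) := add_le_add h2 h5
    _ = _ := by ring

end

end

end Pool.Agent.R296.RE
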