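import Pool.Agent.Y842.CX.Rot

set_option autoImplicit false

/-! # Uniform families of almost periodic sequences, two point correlations and windows in a Hilbert space -/

namespace Pool.Agent.R296.RE

open Finset Filter Topology
open Pool.Agent.Helper602.MK (ee)
open Pool.Agent.Helper602.MK.N_J1c (c_ee_add c_ee_int c_norm_ee)
open Pool.Agent.Y842.PH Pool.Agent.Y842.CX

noncomputable section

/-- at the scale `N` the sequence `b` is close to a sum of `J` phases with slowly varying coefficients -/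
def APN (b : ℕ → ℂ) (ε : ℝ) (J N : ℕ) : Prop := ∃ (ρ : Fin J → ℕ → ℂ) (α : Fin J → ℝ),
    (∀ j n, ‖ρ j n‖ ≤ J) ∧ (∀ j, ∑ n ∈ range N, ‖ρ j (n + 1) - ρ j n‖ ≤ J) ∧
      ∑ n ∈ range N, ‖b n - ∑ j, ρ j n * ee (α j * n)‖ ≤ ε * N

/-- a family of sequences, almost periodic scale by scale, uniformly -/
def UAP (𝓑 : Set (ℕ → ℂ)) : Prop :=
  ∀ ε : ℝ, 0 < ε → ∃ J N₀ : ℕ, ∀ N : ℕ, N₀ ≤ N → ∀ b ∈ 𝓑, APN b ε J N

/-- the two point correlations of `f`, twisted by any phase, are small at the scales outside `E` -/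
def Kf (f : ℕ → ℤ) (E : Set ℕ) : Prop := ∀ h : ℕ, 1 ≤ h → ∀ ε : ℝ, 0 < ε →
      ∃ N₀ : ℕ, ∀ N : ℕ, N₀ ≤ N → N ∉ E → ∀ α : ℝ, ‖Cr f h N α‖ ≤ ε * N

theorem ukill {f : ℕ → ℤ} (hb : ∀ n, |f n| ≤ 1) {E : Set ℕ} (hE : Kf f E) {𝓑 : Set (ℕ → ℂ)} (hAP : UAP 𝓑)
    (k : ℕ) (hk : 1 ≤ k) (ε : ℝ) (hε : 0 < ε) : ∃ N₀ : ℕ, ∀ N : ℕ, N₀ ≤ N → N ∉ E → ∀ b ∈ 𝓑,
      ‖∑ n ∈ range N, ((f n : ℂ) * f (n + k)) * b n‖ ≤ ε * N := by
  obtain ⟨J, N₀, h1⟩ := hAP (ε / 2) (by positivity)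
  set η : ℝ := min 1 (ε / (4 * (J + 1) ^ 2)) with hη
  have hη0 : 0 < η := lt_min one_pos (by positivity)
  have hη1 : η ≤ 1 := min_le_left _ _
  have hη2 : η ≤ ε / (4 * (J + 1) ^ 2) := min_le_right _ _
  obtain ⟨N₁, hN₁⟩ := hE k hk (η ^ 2 / 16) (by positivity)
  obtain ⟨N₂, hN₂⟩ := exists_nat_ge (8 / η)
  refine ⟨N₀ + N₁ + N₂ + 1, fun N hN hNE b hb𝓑 => ?_⟩
  have hN0 : (0 : ℝ) < N := by exact_mod_cast (by omega : 0 < N)
  have hf1 : ∀ n, ‖(f n : ℂ)‖ ≤ 1 := by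
    intro n
    rw [Complex.norm_intCast]
    exact_mod_cast hb n
  have hff : ∀ n, ‖(f n : ℂ) * f (n + k)‖ ≤ 1 := by
    intro n
    rw [norm_mul]
    exact mul_le_one₀ (hf1 _) (norm_nonneg _) (hf1 _)
  obtain ⟨ρ, α, hρ1, hρ2, hρ3⟩ := h1 N (by omega) b hb𝓑
  have h2 : ∀ j, ‖∑ n ∈ range N, ρ j n * (((f n : ℂ) * f (n + k)) * ee (α j * n))‖ ≤ 2 * J * (η * N) := fun j =>
    bv_sum (ρ j) _ J (η * N) (by positivity) N (hρ1 j N) (hρ2 j) (fun y hy =>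
      part N (fun n => (f n : ℂ) * f (n + k)) hff η hη0 hη1
      (hN₂.trans (by exact_mod_cast (by omega : N₂ ≤ N))) (fun β => hN₁ N (by omega) hNE β) y hy (α j))
  have e1 : ∑ n ∈ range N, ((f n : ℂ) * f (n + k)) * b n =
      ∑ j, ∑ n ∈ range N, ρ j n * (((f n : ℂ) * f (n + k)) * ee (α j * n)) +
      ∑ n ∈ range N, ((f n : ℂ) * f (n + k)) * (b n - ∑ j, ρ j n * ee (α j * n)) := by
    rw [sum_comm, ← sum_add_distrib]
    refine sum_congr rfl fun n _ => ?_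
    rw [mul_sub, mul_sum]
    have e2 : ∑ j, ρ j n * (((f n : ℂ) * f (n + k)) * ee (α j * n)) =
        ∑ j, (f n : ℂ) * f (n + k) * (ρ j n * ee (α j * n)) := sum_congr rfl fun j _ => by ring
    rw [e2]
    ring
  rw [e1]
  refine (norm_add_le _ _).trans ?_
  have h4 : ‖∑ j, ∑ n ∈ range N, ρ j n * (((f n : ℂ) * f (n + k)) * ee (α j * n))‖ ≤ ε / 2 * N := by
    refine (norm_sum_le _ _).trans ?_
    refine (sum_le_sum fun j _ => h2 j).trans ?_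
    rw [sum_const, card_univ, Fintype.card_fin, nsmul_eq_mul]
    have hJ : (0 : ℝ) ≤ J := Nat.cast_nonneg J
    calc (J : ℝ) * (2 * J * (η * N)) = 2 * J ^ 2 * η * N := by ring
      _ ≤ 2 * (J + 1) ^ 2 * (ε / (4 * (J + 1) ^ 2)) * N := by
          apply mul_le_mul_of_nonneg_right _ hN0.le
          apply mul_le_mul _ hη2 hη0.le (by positivity)
          apply mul_le_mul_of_nonneg_left _ (by norm_num)
          exact pow_le_pow_left₀ hJ (by linarith) 2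
      _ = ε / 2 * N := by
          field_simp
          ring
  have h5 : ‖∑ n ∈ range N, ((f n : ℂ) * f (n + k)) * (b n - ∑ j, ρ j n * ee (α j * n))‖ ≤ ε / 2 * N := by
    refine (norm_sum_le _ _).trans (le_trans (sum_le_sum fun n _ => ?_) hρ3)
    rw [norm_mul]
    calc ‖(f n : ℂ) * f (n + k)‖ * ‖b n - ∑ j, ρ j n * ee (α j * n)‖ ≤ 1 * ‖b n - ∑ j, ρ j n * ee (α j * n)‖ :=
          mul_le_mul_of_nonneg_right (hff n) (norm_nonneg _)
      _ = _ := one_mul _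
  linarith

/-- the weight twisted by `θ` -/
def tw (f : ℕ → ℤ) (θ : ℝ) (n : ℕ) : ℂ := (f n : ℂ) * ee (θ * n)

lemma norm_tw {f : ℕ → ℤ} (hf : ∀ n, |f n| ≤ 1) (θ : ℝ) (n : ℕ) : ‖tw f θ n‖ ≤ 1 := by
  unfold tw
  rw [norm_mul, c_norm_ee, mul_one, Complex.norm_intCast]
  exact_mod_cast hf n

lemma tw_conj (f : ℕ → ℤ) (θ : ℝ) (n k : ℕ) :
    (starRingEnd ℂ) (tw f θ n) * tw f θ (n + k) = ee (θ * k) * ((f n : ℂ) * f (n + k)) := by
  unfold tw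
  rw [map_mul, map_intCast]
  have h1 : (starRingEnd ℂ) (ee (θ * n)) = ee (-(θ * n)) := by
    unfold ee
    rw [← Complex.exp_conj]
    congr 1
    simp only [map_mul, Complex.conj_ofReal, Complex.conj_I, Complex.ofReal_neg, map_ofNat, map_natCast,
      Complex.ofReal_mul, Complex.ofReal_natCast]
    ring
  have h2 : ee (-(θ * n)) * ee (θ * ((n + k : ℕ) : ℝ)) = ee (θ * k) := by
    rw [← c_ee_add]
    congr 1
    push_cast
    ring
  rw [h1, ← h2]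
  ring

/-- windows in a Hilbert space -/
theorem uvec {V : Type*} [NormedAddCommGroup V] [InnerProductSpace ℂ V] {f : ℕ → ℤ} (hb : ∀ n, |f n| ≤ 1)
    {E : Set ℕ} (hE : Kf f E) {𝓥 : Set (ℕ → V)} (h𝓥 : ∀ v ∈ 𝓥, ∀ n, ‖v n‖ ≤ 1)
    (hAP : ∀ k : ℕ, 1 ≤ k → UAP {b | ∃ v ∈ 𝓥, b = fun n => inner ℂ (v n) (v (n + k))})
    (H : ℕ) (ε : ℝ) (hε : 0 < ε) : ∃ N₀ : ℕ, ∀ N : ℕ, N₀ ≤ N → N ∉ E → ∀ v ∈ 𝓥, ∀ θ : ℝ,
      ∑ n ∈ range N, ‖∑ m ∈ range H, tw f θ (n + m) • v (n + m)‖ ^ 2 ≤ (H + ε) * N := by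
  set η : ℝ := ε / (4 * (H + 1) ^ 3) with hη
  have hη0 : 0 < η := by positivity
  have h1 : ∀ k ∈ Ico 1 H, ∃ N₀ : ℕ, ∀ N : ℕ, N₀ ≤ N → N ∉ E → ∀ v ∈ 𝓥,
      ‖∑ n ∈ range N, ((f n : ℂ) * f (n + k)) * inner ℂ (v n) (v (n + k))‖ ≤ η * N := by
    intro k hk
    obtain ⟨N₀, h2⟩ := ukill hb hE (hAP k (mem_Ico.1 hk).1) k (mem_Ico.1 hk).1 η hη0
    exact ⟨N₀, fun N hN hNE v hv => h2 N hN hNE _ ⟨v, hv, rfl⟩⟩
  choose! N₀ hN₀ using h1
  obtain ⟨N₂, hN₂⟩ := exists_nat_ge (1 / η)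
  refine ⟨(∑ k ∈ Ico 1 H, N₀ k) + N₂ + 1, fun N hN hNE v hv θ => ?_⟩
  have hN1 : 1 ≤ N := by omega
  have hN0 : (0 : ℝ) < N := by exact_mod_cast (by omega : 0 < N)
  have h3 := vdc (natw_wt N hN1) (fun n => tw f θ n • v n) (fun n => by
    rw [norm_smul]
    exact mul_le_one₀ (norm_tw hb θ n) (norm_nonneg _) (h𝓥 v hv n)) H
  have hQ : Qs (natw N) N H (fun n => tw f θ n • v n) =
      (1 / (N : ℝ)) * ∑ n ∈ range N, ‖∑ m ∈ range H, tw f θ (n + m) • v (n + m)‖ ^ 2 := by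
    unfold Qs
    rw [mul_sum]
    refine sum_congr rfl fun n hn => ?_
    unfold natw
    rw [if_pos (mem_range.1 hn)]
  have h4 : ∀ k ∈ Ico 1 H, ‖L (natw N) N (cr (fun n => tw f θ n • v n) k)‖ ≤ η := by
    intro k hk
    rw [L_nat, norm_smul]
    have e : ∑ n ∈ range N, cr (fun n => tw f θ n • v n) k n =
        ee (θ * k) * ∑ n ∈ range N, ((f n : ℂ) * f (n + k)) * inner ℂ (v n) (v (n + k)) := by
      rw [mul_sum]
      refine sum_congr rfl fun n _ => ?_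
      unfold cr
      rw [inner_smul_left, inner_smul_right, ← mul_assoc, tw_conj]
      ring
    rw [e, norm_mul, c_norm_ee, one_mul]
    have e2 : ‖(1 / (N : ℂ))‖ = 1 / (N : ℝ) := by
      rw [norm_div, norm_one, Complex.norm_natCast]
    rw [e2, one_div, inv_mul_le_iff₀ hN0]
    have h5 := hN₀ k hk N (by
      have : N₀ k ≤ ∑ k ∈ Ico 1 H, N₀ k := single_le_sum (f := N₀) (fun _ _ => Nat.zero_le _) hk
      omega) hNE v hv
    linarith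
  rw [hQ] at h3
  have h6 : ∑ k ∈ Ico 1 H, ‖L (natw N) N (cr (fun n => tw f θ n • v n) k)‖ ≤ H * η := by
    calc _ ≤ ∑ _k ∈ Ico 1 H, η := sum_le_sum h4
      _ = ((Ico 1 H).card : ℝ) * η := by rw [sum_const, nsmul_eq_mul]
      _ ≤ H * η := by
          apply mul_le_mul_of_nonneg_right _ hη0.le
          rw [Nat.card_Ico]
          exact_mod_cast Nat.sub_le _ _
  have h7 : (2 : ℝ) / N ≤ 2 * η := by
    have h8 : 1 / η ≤ N := hN₂.trans (by exact_mod_cast (by omega : N₂ ≤ N))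
    rw [div_le_iff₀ hη0] at h8
    rw [div_le_iff₀ hN0]
    linarith
  have hH : (0 : ℝ) ≤ H := Nat.cast_nonneg H
  have h9 : (H : ℝ) ^ 2 * (∑ k ∈ Ico 1 H, ‖L (natw N) N (cr (fun n => tw f θ n • v n) k)‖ + H * (2 / N)) ≤ ε := by
    calc _ ≤ (H : ℝ) ^ 2 * (H * η + H * (2 * η)) := by
          apply mul_le_mul_of_nonneg_left _ (by positivity)
          exact add_le_add h6 (mul_le_mul_of_nonneg_left h7 hH)
      _ = 3 * (H : ℝ) ^ 3 * η := by ring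
      _ ≤ 4 * ((H : ℝ) + 1) ^ 3 * η := by
          apply mul_le_mul_of_nonneg_right _ hη0.le
          apply mul_le_mul (by norm_num) _ (by positivity) (by norm_num)
          exact pow_le_pow_left₀ hH (by linarith) 3
      _ = ε := by
          rw [hη]
          field_simp
  have h10 : 1 / (N : ℝ) * ∑ n ∈ range N, ‖∑ m ∈ range H, tw f θ (n + m) • v (n + m)‖ ^ 2 ≤ H + ε := by linarith
  rw [one_div, inv_mul_le_iff₀ hN0] at h10
  linarith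

end

end Pool.Agent.R296.RE
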