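import Pool.Agent.R296.RE.Grp

set_option autoImplicit false

/-! # The main estimate for cocycles of sublinear range -/

namespace Pool.Agent.R296.RE

open Finset Filter Topology MeasureTheory
open scoped ENNReal InnerProductSpace Pointwise

noncomputable section

/-- bump functions of integral one -/
theorem exists_unit (G : Type*) [Group G] [TopologicalSpace G] [IsTopologicalGroup G] [T2Space G]
    [LocallyCompactSpace G] [MeasurableSpace G] [BorelSpace G] (ν : Measure G) [ν.IsHaarMeasure] :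
    ∃ β : G → ℝ, Continuous β ∧ (∃ K₀ : Set G, IsCompact K₀ ∧ ∀ g ∉ K₀, β g = 0) ∧ (∀ g, 0 ≤ β g) ∧
      ∫ g, β g ∂ν = 1 := by
  obtain ⟨f, hf1, hf2, hf3, hf4⟩ := exists_continuousMap_one_of_isCompact_subset_isOpen
    (isCompact_singleton (x := (1 : G))) isOpen_univ (Set.subset_univ _)
  have hf1' : f 1 = 1 := hf1 rfl
  have hpos : 0 < ∫ x, f x ∂ν :=
    f.continuous.integral_pos_of_hasCompactSupport_nonneg_nonzero hf2 (fun x => (hf4 x).1)
      (x := 1) (by rw [hf1']; norm_num)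
  refine ⟨fun x => (∫ x, f x ∂ν)⁻¹ * f x, continuous_const.mul f.continuous, ⟨tsupport f, hf2, fun g hg => ?_⟩, ?_, ?_⟩
  · show (∫ x, f x ∂ν)⁻¹ * f g = 0
    rw [image_eq_zero_of_notMem_tsupport hg, mul_zero]
  · intro x; exact mul_nonneg (inv_nonneg.2 hpos.le) (hf4 x).1
  · rw [integral_const_mul, inv_mul_cancel₀ hpos.ne']

section

variable {Y G : Type*} [TopologicalSpace Y] [CompactSpace Y] [Group G] [TopologicalSpace G] [IsTopologicalGroup G]
  [T2Space G] [LocallyCompactSpace G]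

omit [TopologicalSpace Y] [CompactSpace Y] [LocallyCompactSpace G] in
/-- the translates of a compact set -/
lemma cover [MeasurableSpace G] [BorelSpace G] {ν : Measure G} [IsFiniteMeasureOnCompacts ν] [ν.IsMulLeftInvariant]
    (S : Y → Y) (φ : Y → G) {K K₀ : Set G} (hK : IsCompact K) (hK₀ : IsCompact K₀) (y : Y) (n H : ℕ) (A : Finset G)
    (hA : ∀ m < H, ∃ g ∈ A, prods S φ m (S^[n] y) * g ∈ K) :
    ∃ U : Set G, MeasurableSet U ∧ ν U ≠ ∞ ∧ ν.real U ≤ A.card * ν.real (K⁻¹ * K₀) ∧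
      ∀ m < H, ∀ t, prods S φ (n + m) y * t ∈ K₀ → t ∈ U := by
  have hC : IsCompact (K⁻¹ * K₀) := hK.inv.mul hK₀
  have hfin : ν (K⁻¹ * K₀) ≠ ∞ := hC.measure_ne_top
  set V : G → Set G := fun g => (fun t => g⁻¹ * prods S φ n y * t) ⁻¹' (K⁻¹ * K₀) with hV
  have hVm : ∀ g, MeasurableSet (V g) := fun g =>
    (hC.isClosed.preimage (continuous_const.mul continuous_id)).measurableSet
  have hVν : ∀ g, ν (V g) = ν (K⁻¹ * K₀) := fun g => measure_preimage_mul ν _ _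
  have h1 : ν (⋃ g ∈ A, V g) ≤ A.card * ν (K⁻¹ * K₀) := by
    refine (measure_biUnion_finset_le A V).trans ?_
    simp only [hVν, sum_const, nsmul_eq_mul]
    exact le_rfl
  have h2 : (A.card : ℝ≥0∞) * ν (K⁻¹ * K₀) ≠ ∞ := ENNReal.mul_ne_top (ENNReal.natCast_ne_top _) hfin
  refine ⟨⋃ g ∈ A, V g, Finset.measurableSet_biUnion A fun g _ => hVm g, ne_top_of_le_ne_top h2 h1, ?_, ?_⟩
  · rw [measureReal_def, measureReal_def]
    refine (ENNReal.toReal_mono h2 h1).trans (le_of_eq ?_)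
    rw [ENNReal.toReal_mul, ENNReal.toReal_natCast]
  · intro m hm t ht
    obtain ⟨g, hg, hgK⟩ := hA m hm
    rw [Set.mem_iUnion₂]
    refine ⟨g, hg, ?_⟩
    show g⁻¹ * prods S φ n y * t ∈ K⁻¹ * K₀
    rw [prods_add] at ht
    refine Set.mem_mul.2 ⟨(prods S φ m (S^[n] y) * g)⁻¹, Set.inv_mem_inv.2 hgK, _, ht, by group⟩

/-- **Main theorem**, windows. -/
theorem windows {B : Type*} [NormedAddCommGroup B] [NormedSpace ℂ B] {f : ℕ → ℤ} (hb : ∀ n, |f n| ≤ 1) {E : Set ℕ}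
    (hE : Kf f E) {S : Y → Y} (hS : Continuous S) {φ : Y → G} (hφ : Continuous φ) {𝒴 : Set Y}
    (hAP : ∀ c : C(Y, ℂ), UAP {b | ∃ y ∈ 𝒴, b = fun n => c (S^[n] y)}) (hR : Sub S φ 𝒴) (R : Rep G B) {F : Y → B}
    (hF : Continuous F) (ε : ℝ) (hε : 0 < ε) : ∃ H₀ : ℕ, ∀ H ≥ H₀, ∃ N₀ : ℕ, ∀ N ≥ N₀, N ∉ E → ∀ y ∈ 𝒴, ∀ θ : ℝ,
      ∑ n ∈ range N, ‖∑ m ∈ range H, tw f θ (n + m) • R.Q (prods S φ (n + m) y) (F (S^[n + m] y))‖ ≤ ε * (H * N) := by
  let _ : MeasurableSpace G := borel G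
  have _ : BorelSpace G := ⟨rfl⟩
  set ν : Measure G := Measure.haar with hν
  obtain ⟨β, hβ, ⟨K₀, hK₀, hβK⟩, hβ0, hβ1⟩ := exists_unit G ν
  obtain ⟨K, hK, hR⟩ := hR
  -- the approximation
  obtain ⟨s, a, hac, ha0, hap⟩ := approx (R.cont2 hF) (K := (Set.univ : Set Y) ×ˢ K₀) (isCompact_univ.prod hK₀)
    (β := fun p : Y × G => β p.2) (hβ.comp continuous_snd) (fun p => hβ0 p.2)
    (fun p hp => hβK _ fun h => hp ⟨Set.mem_univ _, h⟩) (ε / 3) (by positivity)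
  have haK : ∀ x y, ∀ g ∉ K₀, a x (y, g) = 0 := fun x y g hg =>
    le_antisymm ((ha0 x (y, g)).2.trans (hβK g hg).le) (ha0 x (y, g)).1
  -- the bound for the norms
  set I : ℝ := ∫ g, β g ^ 2 ∂ν with hI
  have hI0 : 0 ≤ I := integral_nonneg fun g => sq_nonneg _
  set D : ℝ := 1 + I with hD
  have hD1 : 1 ≤ D := by linarith
  have hD0 : 0 < D := by linarith
  have hβ2 : Integrable (fun g => β g ^ 2) ν := by
    refine Continuous.integrable_of_hasCompactSupport (hβ.pow 2) (HasCompactSupport.intro hK₀ fun g hg => ?_)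
    rw [hβK g hg]; simp
  have hnorm : ∀ x y m, ‖emb ν (vv S φ (a x) y m)‖ ≤ D := by
    intro x y m
    have hcs := vv_CS S φ (hac x) hK₀ (haK x) y m
    have h1 : ‖emb ν (vv S φ (a x) y m)‖ ^ 2 ≤ I := by
      have hI' : I = ∫ t, β (prods S φ m y * t) ^ 2 ∂ν :=
        (integral_mul_left_eq_self (μ := ν) (fun g => β g ^ 2) (prods S φ m y)).symm
      rw [emb_norm hcs, hI']
      refine integral_mono ?_ (hβ2.comp_mul_left (prods S φ m y)) fun t => ?_
      · have := (hcs.memLp (ν := ν)).integrable_norm_pow (p := 2) (by norm_num)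
        simpa using this
      · show ‖vv S φ (a x) y m t‖ ^ 2 ≤ β (prods S φ m y * t) ^ 2
        unfold vv
        rw [Complex.norm_real, Real.norm_of_nonneg (ha0 x _).1]
        exact pow_le_pow_left₀ (ha0 x _).1 (ha0 x _).2 2
    nlinarith [norm_nonneg (emb ν (vv S φ (a x) y m))]
  -- scaled functions
  set a' : B → Y × G → ℝ := fun x p => D⁻¹ * a x p with ha'
  have ha'c : ∀ x, Continuous (a' x) := fun x => continuous_const.mul (hac x)
  have ha'K : ∀ x y, ∀ g ∉ K₀, a' x (y, g) = 0 := fun x y g hg => by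
    show D⁻¹ * a x (y, g) = 0
    rw [haK x y g hg, mul_zero]
  have hemb : ∀ x y m, emb ν (vv S φ (a x) y m) = (D : ℂ) • emb ν (vv S φ (a' x) y m) := by
    intro x y m
    rw [← emb_smul (vv_CS S φ (ha'c x) hK₀ (ha'K x) y m)]
    congr 1
    funext t
    rw [ha', vv_smul, ← mul_assoc, ← Complex.ofReal_mul, mul_inv_cancel₀ hD0.ne', Complex.ofReal_one, one_mul]
  have hnorm' : ∀ x y m, ‖emb ν (vv S φ (a' x) y m)‖ ≤ 1 := by
    intro x y m
    have h1 := hnorm x y m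
    rw [hemb, norm_smul, Complex.norm_real, Real.norm_of_nonneg hD0.le] at h1
    by_contra hcon
    push Not at hcon
    nlinarith
  set 𝓥 : B → Set (ℕ → Lp ℂ 2 ν) := fun x => {v | ∃ y ∈ 𝒴, v = fun m => emb ν (vv S φ (a' x) y m)} with h𝓥
  have hU : ∀ x, ∀ k : ℕ, 1 ≤ k → UAP {b | ∃ v ∈ 𝓥 x, b = fun n => inner ℂ (v n) (v (n + k))} := by
    intro x k _
    obtain ⟨κ, hκ⟩ := kernel (ν := ν) hS hφ (ha'c x) hK₀ (ha'K x) k
    have h1 := hAP κ
    have e : {b | ∃ v ∈ 𝓥 x, b = fun n => inner ℂ (v n) (v (n + k))} = {b : ℕ → ℂ | ∃ y ∈ 𝒴, b = fun n => κ (S^[n] y)} := by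
      ext b
      constructor
      · rintro ⟨_, ⟨y, hy, rfl⟩, rfl⟩
        exact ⟨y, hy, funext fun n => hκ y n⟩
      · rintro ⟨y, hy, rfl⟩
        exact ⟨_, ⟨y, hy, rfl⟩, funext fun n => (hκ y n).symm⟩
    rw [e]
    exact h1
  -- constants
  set M₀ : ℝ := ν.real (K⁻¹ * K₀) with hM₀
  have hM₀0 : 0 ≤ M₀ := measureReal_nonneg
  set S₀ : ℝ := 1 + ∑ x ∈ s, ‖x‖ with hS₀
  have hs00 : 0 ≤ ∑ x ∈ s, ‖x‖ := sum_nonneg fun _ _ => norm_nonneg _
  have hS₀1 : 1 ≤ S₀ := by linarith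
  set c : ℝ := 3 * S₀ * D ^ 2 / ε with hc
  have hc0 : 0 < c := by positivity
  set δ : ℝ := ε / (3 * S₀ * c * (M₀ + 1)) with hδ
  have hδ0 : 0 < δ := by positivity
  obtain ⟨H₀, hH₀⟩ := hR δ hδ0
  refine ⟨H₀ + 1, fun H hH => ?_⟩
  have hH1 : (1 : ℝ) ≤ H := by exact_mod_cast (by omega : 1 ≤ H)
  have hx : ∀ x, ∃ N₀ : ℕ, ∀ N ≥ N₀, N ∉ E → ∀ y ∈ 𝒴, ∀ θ : ℝ,
      ∑ n ∈ range N, ‖∑ m ∈ range H, tw f θ (n + m) • emb ν (vv S φ (a' x) y (n + m))‖ ^ 2 ≤ (H + 1) * N := by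
    intro x
    obtain ⟨N₀, h1⟩ := uvec hb hE (𝓥 := 𝓥 x) (by
      rintro _ ⟨y, _, rfl⟩ n
      exact hnorm' x y n) (hU x) H 1 one_pos
    exact ⟨N₀, fun N hN hNE y hy θ => h1 N hN hNE _ ⟨y, hy, rfl⟩ θ⟩
  choose N₀ hN₀ using hx
  refine ⟨∑ x ∈ s, N₀ x, fun N hN hNE y hy θ => ?_⟩
  have hN0 : (0 : ℝ) ≤ N := Nat.cast_nonneg N
  have hone : ∀ n, ‖∑ m ∈ range H, tw f θ (n + m) • R.Q (prods S φ (n + m) y) (F (S^[n + m] y))‖ ≤
      ∑ x ∈ s, ‖x‖ * (1 / (2 * c) * (D ^ 2 *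
        ‖∑ m ∈ range H, tw f θ (n + m) • emb ν (vv S φ (a' x) y (n + m))‖ ^ 2) + c / 2 * (δ * H * M₀)) + ε / 3 * H := by
    intro n
    obtain ⟨A, hA1, hA2⟩ := hH₀ H (by omega) y hy n
    obtain ⟨U, hUm, hUf, hUr, hUt⟩ := cover (ν := ν) S φ hK hK₀ y n H A hA2
    have hinj : Set.InjOn (fun m => n + m) (range H : Set ℕ) := fun i _ j _ h => by simpa using h
    have h1 := window_le (ν := ν) R F S φ hβ hK₀ hβ0 hβK hβ1 s a (fun x y m => vv_CS S φ (hac x) hK₀ (haK x) y m) haK hap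
      ((range H).image fun m => n + m) (tw f θ) (norm_tw hb θ) y hUm hUf (by
        intro m' hm' t ht
        obtain ⟨m, hm, rfl⟩ := mem_image.1 hm'
        exact hUt m (mem_range.1 hm) t ht) hc0
    rw [sum_image hinj, card_image_of_injOn hinj, card_range] at h1
    refine h1.trans ?_
    refine add_le_add (sum_le_sum fun x _ => mul_le_mul_of_nonneg_left (add_le_add ?_ ?_) (norm_nonneg _)) le_rfl
    · rw [sum_image hinj]
      apply le_of_eq
      have e1 : ∑ m ∈ range H, tw f θ (n + m) • emb ν (vv S φ (a x) y (n + m)) =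
          (D : ℂ) • ∑ m ∈ range H, tw f θ (n + m) • emb ν (vv S φ (a' x) y (n + m)) := by
        rw [smul_sum]
        refine sum_congr rfl fun m _ => ?_
        rw [hemb, smul_comm]
      rw [e1, norm_smul, Complex.norm_real, Real.norm_of_nonneg hD0.le, mul_pow]
    · apply mul_le_mul_of_nonneg_left _ (by positivity)
      exact hUr.trans (mul_le_mul_of_nonneg_right hA1 hM₀0)
  calc ∑ n ∈ range N, ‖∑ m ∈ range H, tw f θ (n + m) • R.Q (prods S φ (n + m) y) (F (S^[n + m] y))‖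
      ≤ ∑ n ∈ range N, (∑ x ∈ s, ‖x‖ * (1 / (2 * c) * (D ^ 2 *
        ‖∑ m ∈ range H, tw f θ (n + m) • emb ν (vv S φ (a' x) y (n + m))‖ ^ 2) + c / 2 * (δ * H * M₀)) + ε / 3 * H) :=
        sum_le_sum fun n _ => hone n
    _ = ∑ x ∈ s, ‖x‖ * (1 / (2 * c) * (D ^ 2 * ∑ n ∈ range N,
        ‖∑ m ∈ range H, tw f θ (n + m) • emb ν (vv S φ (a' x) y (n + m))‖ ^ 2) + N * (c / 2 * (δ * H * M₀))) +
          N * (ε / 3 * H) := by
        rw [sum_add_distrib, sum_comm, sum_const, card_range, nsmul_eq_mul]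
        congr 1
        refine sum_congr rfl fun x _ => ?_
        rw [← mul_sum, sum_add_distrib, ← mul_sum, ← mul_sum, sum_const, card_range, nsmul_eq_mul]
    _ ≤ ∑ x ∈ s, ‖x‖ * (1 / (2 * c) * (D ^ 2 * ((H + 1) * N)) + N * (c / 2 * (δ * H * M₀))) + N * (ε / 3 * H) := by
        gcongr with x hx
        exact hN₀ x N (le_trans (single_le_sum (f := N₀) (fun _ _ => Nat.zero_le _) hx) hN) hNE y hy θ
    _ = (∑ x ∈ s, ‖x‖) * (1 / (2 * c) * (D ^ 2 * ((H + 1) * N)) + N * (c / 2 * (δ * H * M₀))) + N * (ε / 3 * H) := by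
        rw [sum_mul]
    _ ≤ S₀ * (1 / (2 * c) * (D ^ 2 * ((H + H) * N)) + N * (c / 2 * (δ * H * M₀))) + N * (ε / 3 * H) := by
        gcongr
        linarith
    _ = (S₀ * D ^ 2 / c) * (H * N) + (S₀ * c / 2 * (δ * M₀)) * (H * N) + ε / 3 * (H * N) := by
        field_simp
        ring
    _ ≤ ε / 3 * (H * N) + ε / 3 * (H * N) + ε / 3 * (H * N) := by
        have h1 : S₀ * D ^ 2 / c = ε / 3 := by
          rw [hc]
          field_simp
        have h2 : S₀ * c / 2 * (δ * M₀) ≤ ε / 3 := by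
          have h3 : δ * M₀ ≤ δ * (M₀ + 1) := mul_le_mul_of_nonneg_left (by linarith) hδ0.le
          have h4 : δ * (M₀ + 1) = ε / (3 * S₀ * c) := by
            rw [hδ]
            field_simp
          calc S₀ * c / 2 * (δ * M₀) ≤ S₀ * c / 2 * (ε / (3 * S₀ * c)) := by
                rw [← h4]
                exact mul_le_mul_of_nonneg_left h3 (by positivity)
            _ = ε / 6 := by
                field_simp
                norm_num
            _ ≤ ε / 3 := by linarith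
        rw [h1]
        have : 0 ≤ (H : ℝ) * N := by positivity
        gcongr
    _ = ε * (H * N) := by ring

end

end

end Pool.Agent.R296.RE
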