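import Pool.Agent.R296.RE.Main
import Pool.Agent.R296.SM.Lg

set_option autoImplicit false

/-! # Long sums, rotations, homomorphisms to the line, spaces of continuous functions -/

namespace Pool.Agent.R296.RE

open Finset Filter Topology MeasureTheory
open Pool.Agent.Helper602.MK (ee)
open Pool.Agent.Helper602.MK.N_J1c (c_ee_add c_ee_int c_norm_ee)
open Pool.Agent.Y842.PH Pool.Agent.Y842.CX

noncomputable section

section sums

variable {B : Type*} [NormedAddCommGroup B]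

lemma shift_sum (b : ℕ → B) {C : ℝ} (hb : ∀ n, ‖b n‖ ≤ C) (N m : ℕ) :
    ‖∑ n ∈ range N, b (n + m) - ∑ n ∈ range N, b n‖ ≤ 2 * m * C := by
  induction m with
  | zero => simp
  | succ m ih =>
    have h1 : ∑ n ∈ range N, b (n + (m + 1)) - ∑ n ∈ range N, b (n + m) = b (N + m) - b m := by
      have e1 := sum_range_succ (fun n => b (n + m)) N
      have e2 := sum_range_succ' (fun n => b (n + m)) N
      have e3 : ∑ n ∈ range N, b (n + (m + 1)) = ∑ n ∈ range N, b (n + 1 + m) :=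
        sum_congr rfl fun n _ => by congr 1; ring
      rw [e3]
      rw [e1] at e2
      have e4 : ∑ k ∈ range N, b (k + 1 + m) = ∑ x ∈ range N, b (x + m) + b (N + m) - b (0 + m) := by
        rw [e2]; abel
      rw [e4, zero_add]; abel
    have h2 := norm_add_le (∑ n ∈ range N, b (n + (m + 1)) - ∑ n ∈ range N, b (n + m))
      (∑ n ∈ range N, b (n + m) - ∑ n ∈ range N, b n)
    rw [sub_add_sub_cancel, h1] at h2
    have h3 := norm_sub_le (b (N + m)) (b m)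
    have h4 := hb (N + m)
    have h5 := hb m
    push_cast
    linarith

/-- from windows to long sums -/
lemma long_sum [NormedSpace ℂ B] (b : ℕ → B) {C : ℝ} (hb : ∀ n, ‖b n‖ ≤ C) (N H : ℕ) (hH : 1 ≤ H) :
    ‖∑ n ∈ range N, b n‖ ≤ 1 / H * ∑ n ∈ range N, ‖∑ m ∈ range H, b (n + m)‖ + 2 * H * C := by
  have hC : 0 ≤ C := (norm_nonneg _).trans (hb 0)
  have hH0 : (0 : ℝ) < H := by exact_mod_cast hH
  have h1 : ‖∑ m ∈ range H, (∑ n ∈ range N, b (n + m) - ∑ n ∈ range N, b n)‖ ≤ H * (2 * H * C) := by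
    refine (norm_sum_le _ _).trans ?_
    calc _ ≤ ∑ _m ∈ range H, 2 * H * C := by
          refine sum_le_sum fun m hm => (shift_sum b hb N m).trans ?_
          have : (m : ℝ) ≤ H := by exact_mod_cast (mem_range.1 hm).le
          gcongr
      _ = _ := by rw [sum_const, card_range, nsmul_eq_mul]
  rw [sum_sub_distrib, sum_const, card_range, sum_comm] at h1
  have h2 : ‖∑ n ∈ range N, ∑ m ∈ range H, b (n + m)‖ ≤ ∑ n ∈ range N, ‖∑ m ∈ range H, b (n + m)‖ := norm_sum_le _ _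
  have h3 : ‖H • ∑ n ∈ range N, b n‖ = H * ‖∑ n ∈ range N, b n‖ := by
    rw [← Nat.cast_smul_eq_nsmul ℂ, norm_smul, Complex.norm_natCast]
  have h4 := norm_sub_norm_le (H • ∑ n ∈ range N, b n) (∑ n ∈ range N, ∑ m ∈ range H, b (n + m))
  rw [h3, norm_sub_rev] at h4
  have h5 : H * ‖∑ n ∈ range N, b n‖ ≤ ∑ n ∈ range N, ‖∑ m ∈ range H, b (n + m)‖ + H * (2 * H * C) := by linarith
  have h6 : ‖∑ n ∈ range N, b n‖ ≤ (∑ n ∈ range N, ‖∑ m ∈ range H, b (n + m)‖ + H * (2 * H * C)) / H := by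
    rw [le_div_iff₀ hH0]
    linarith
  refine h6.trans (le_of_eq ?_)
  field_simp

lemma Icc_sum (b : ℕ → B) {C : ℝ} (hb : ∀ n, ‖b n‖ ≤ C) (N : ℕ) :
    ‖∑ n ∈ Icc 1 N, b n‖ ≤ ‖∑ n ∈ range N, b n‖ + 2 * C := by
  have e3 : ∑ n ∈ Icc 1 N, b n = ∑ n ∈ range N, b n + (b N - b 0) := by
    have e4 := sum_range_succ b N
    have e5 := sum_range_succ' b N
    have e6 : ∑ n ∈ Icc 1 N, b n = ∑ n ∈ range N, b (n + 1) := by
      rw [range_eq_Ico, sum_Ico_add' b 0 N 1]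
      rfl
    rw [e6]
    rw [e4] at e5
    have e7 : ∑ k ∈ range N, b (k + 1) = ∑ x ∈ range N, b x + b N - b 0 := by rw [e5]; abel
    rw [e7]; abel
  rw [e3]
  have h6 := norm_add_le (∑ n ∈ range N, b n) (b N - b 0)
  have h7 := norm_sub_le (b N) (b 0)
  have h8 := hb N
  have h9 := hb 0
  linarith

lemma Icc_win (b : ℕ → B) {C : ℝ} (hb : ∀ n, ‖b n‖ ≤ C) (N H : ℕ) :
    ∑ n ∈ Icc 1 N, ‖∑ m ∈ Icc 1 H, b (n + m)‖ ≤ ∑ n ∈ range N, ‖∑ m ∈ range H, b (n + m)‖ + 2 * (H * C) := by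
  set g : ℕ → ℝ := fun n => ‖∑ m ∈ range H, b (n + m)‖ with hg
  have hg0 : ∀ n, 0 ≤ g n := fun n => norm_nonneg _
  have hgD : ∀ n, g n ≤ H * C := by
    intro n
    refine (norm_sum_le _ _).trans ((sum_le_sum fun m _ => hb _).trans ?_)
    rw [sum_const, card_range, nsmul_eq_mul]
  have e2 : ∑ n ∈ Icc 1 N, ‖∑ m ∈ Icc 1 H, b (n + m)‖ = ∑ n ∈ Icc 1 N, g (n + 1) := by
    refine sum_congr rfl fun n _ => ?_
    rw [hg]
    have e4 : ∑ m ∈ Icc 1 H, b (n + m) = ∑ m ∈ range H, b (n + (m + 1)) := by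
      rw [range_eq_Ico, sum_Ico_add' (fun m => b (n + m)) 0 H 1]
      rfl
    show _ = ‖∑ m ∈ range H, b (n + 1 + m)‖
    rw [e4]
    congr 1
    refine sum_congr rfl fun m _ => ?_
    congr 1
    ring
  rw [e2]
  have e1 : ∑ n ∈ Icc 1 N, g (n + 1) = ∑ n ∈ range N, g (n + 2) := by
    rw [range_eq_Ico, sum_Ico_add' (fun n => g (n + 1)) 0 N 1]
    rfl
  have e3 : ∑ n ∈ range N, g (n + 2) ≤ ∑ n ∈ range (N + 2), g n := by
    rw [sum_range_succ' g (N + 1), sum_range_succ' (fun n => g (n + 1)) N]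
    have := hg0 0
    have := hg0 (0 + 1)
    linarith
  have e4 : ∑ n ∈ range (N + 2), g n ≤ ∑ n ∈ range N, g n + 2 * (H * C) := by
    rw [sum_range_succ, sum_range_succ]
    have := hgD N
    have := hgD (N + 1)
    linarith
  rw [e1]
  linarith

/-- The three conclusions for a uniformly bounded family of sequences of vectors. -/
theorem three [NormedSpace ℂ B] {E : Set ℕ} (hE : Pool.Agent.R296.SM.LDZ E) {𝓑 : Set (ℕ → B)} {C : ℝ}
    (hC : ∀ b ∈ 𝓑, ∀ n, ‖b n‖ ≤ C)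
    (h : ∀ ε : ℝ, 0 < ε → ∃ H₀ : ℕ, ∀ H ≥ H₀, ∃ N₀ : ℕ, ∀ N ≥ N₀, N ∉ E → ∀ b ∈ 𝓑,
      ∑ n ∈ range N, ‖∑ m ∈ range H, b (n + m)‖ ≤ ε * (H * N)) (ε : ℝ) (hε : 0 < ε) :
    (∃ N₀ : ℕ, ∀ N ≥ N₀, N ∉ E → ∀ b ∈ 𝓑, ‖∑ n ∈ Icc 1 N, b n‖ ≤ ε * N) ∧
    (∃ H₀ : ℕ, ∀ H ≥ H₀, ∃ N₀ : ℕ, ∀ N ≥ N₀, N ∉ E → ∀ b ∈ 𝓑,
      ∑ n ∈ Icc 1 N, ‖∑ m ∈ Icc 1 H, b (n + m)‖ ≤ ε * (H * N)) ∧
    ∃ N₀ : ℕ, ∀ N ≥ N₀, ∀ b ∈ 𝓑, ‖∑ n ∈ Icc 1 N, (1 / (n : ℂ)) • b n‖ ≤ ε * Real.log N := by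
  have h1 : ∀ ε : ℝ, 0 < ε → ∃ N₀ : ℕ, ∀ N ≥ N₀, N ∉ E → ∀ b ∈ 𝓑, ‖∑ n ∈ Icc 1 N, b n‖ ≤ ε * N := by
    intro ε hε
    obtain ⟨H₀, h2⟩ := h (ε / 2) (by positivity)
    obtain ⟨N₀, h3⟩ := h2 (H₀ + 1) (by omega)
    obtain ⟨N₁, hN₁⟩ := exists_nat_ge (4 * ((H₀ + 1) * |C| + |C|) / ε)
    refine ⟨N₀ + N₁, fun N hN hNE b hb => ?_⟩
    have hCC : C ≤ |C| := le_abs_self C
    have h4 := h3 N (by omega) hNE b hb
    have h5 : 4 * ((H₀ + 1) * |C| + |C|) / ε ≤ N := hN₁.trans (by exact_mod_cast (by omega : N₁ ≤ N))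
    rw [div_le_iff₀ hε] at h5
    have h6 := Icc_sum b (hC b hb) N
    have h7 := long_sum b (hC b hb) N (H₀ + 1) (by omega)
    have hH0 : (0 : ℝ) < ((H₀ + 1 : ℕ) : ℝ) := by positivity
    have h8 : 1 / ((H₀ + 1 : ℕ) : ℝ) * ∑ n ∈ range N, ‖∑ m ∈ range (H₀ + 1), b (n + m)‖ ≤ ε / 2 * N := by
      rw [one_div, inv_mul_le_iff₀ hH0]
      linarith
    push_cast at h7 h8
    have h9 : (2 : ℝ) * (H₀ + 1) * C ≤ 2 * (H₀ + 1) * |C| := by gcongr
    nlinarith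
  refine ⟨h1 ε hε, ?_, Pool.Agent.R296.SM.logmean hE hC h1 ε hε⟩
  obtain ⟨H₀, h2⟩ := h (ε / 2) (by positivity)
  refine ⟨H₀, fun H hH => ?_⟩
  obtain ⟨N₀, h3⟩ := h2 H hH
  obtain ⟨N₁, hN₁⟩ := exists_nat_ge (4 * |C| / ε)
  refine ⟨N₀ + N₁, fun N hN hNE b hb => ?_⟩
  have hCC : C ≤ |C| := le_abs_self C
  have h4 := h3 N (by omega) hNE b hb
  have h5 : 4 * |C| / ε ≤ N := hN₁.trans (by exact_mod_cast (by omega : N₁ ≤ N))
  rw [div_le_iff₀ hε] at h5
  have h6 := Icc_win b (hC b hb) N H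
  have hH : (0 : ℝ) ≤ H := Nat.cast_nonneg H
  have h7 : (H : ℝ) * (4 * |C|) ≤ H * (N * ε) := mul_le_mul_of_nonneg_left h5 hH
  have h8 : (H : ℝ) * C ≤ H * |C| := mul_le_mul_of_nonneg_left hCC hH
  nlinarith

end sums

/-- uniform limits of finite sums of exponentials, uniformly over a family -/
lemma UAP_fin {𝓑 : Set (ℕ → ℂ)} (h : ∀ ε : ℝ, 0 < ε → ∃ (s : Finset ℕ) (C : ℝ), ∀ b ∈ 𝓑, ∃ (c : ℕ → ℂ) (α : ℕ → ℝ),
    ∑ i ∈ s, ‖c i‖ ≤ C ∧ ∀ n, ‖b n - ∑ i ∈ s, c i * ee (α i * (n : ℝ))‖ ≤ ε) : UAP 𝓑 := by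
  intro ε hε
  obtain ⟨s, C, h0⟩ := h ε hε
  obtain ⟨M, hM⟩ := exists_nat_ge C
  set e := s.equivFin with he
  set m := s.card with hmm
  refine ⟨m + M, 0, fun N _ b hb => ?_⟩
  obtain ⟨c, α, hc, h1⟩ := h0 b hb
  refine ⟨Fin.append (fun i _ => c (e.symm i)) (fun _ _ => 0), Fin.append (fun i => α (e.symm i)) (fun _ => 0),
    ?_, ?_, ?_⟩
  · intro j n
    refine Fin.addCases (fun i => ?_) (fun i => ?_) j
    · rw [Fin.append_left]
      have h2 : ‖c (e.symm i)‖ ≤ ∑ i ∈ s, ‖c i‖ :=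
        single_le_sum (f := fun i => ‖c i‖) (fun _ _ => norm_nonneg _) (e.symm i).2
      push_cast
      have h3 : (0 : ℝ) ≤ m := Nat.cast_nonneg m
      show ‖c (e.symm i)‖ ≤ _
      linarith
    · rw [Fin.append_right, norm_zero]
      positivity
  · intro j
    refine Fin.addCases (fun i => ?_) (fun i => ?_) j
    · simp only [Fin.append_left, sub_self, norm_zero, sum_const_zero]
      positivity
    · simp only [Fin.append_right, sub_self, norm_zero, sum_const_zero]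
      positivity
  · have h2 : ∀ n ∈ range N, ‖b n - ∑ j, (Fin.append (fun i (_ : ℕ) => c (e.symm i))
        (fun _ _ => 0) : Fin (m + M) → ℕ → ℂ) j n *
        ee ((Fin.append (fun i => α (e.symm i)) (fun _ => 0) : Fin (m + M) → ℝ) j * n)‖ ≤ ε := by
      intro n _
      refine le_trans (le_of_eq ?_) (h1 n)
      congr 2
      rw [Fin.sum_univ_add]
      simp only [Fin.append_left, Fin.append_right, zero_mul, add_zero, sum_const_zero]
      rw [← Finset.sum_coe_sort s (fun i => c i * ee (α i * (n : ℝ)))]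
      exact Fintype.sum_equiv e.symm _ _ (fun i => rfl)
    refine (sum_le_sum h2).trans ?_
    rw [sum_const, card_range, nsmul_eq_mul, mul_comm]

section rot

variable {Y : Type} [CommGroup Y] [TopologicalSpace Y] [IsTopologicalGroup Y] [CompactSpace Y] [T2Space Y]

/-- trigonometric approximation along a rotation -/
lemma trig (a : Y) (f : C(Y, ℂ)) (ε : ℝ) (hε : 0 < ε) : ∃ (s : Finset ℕ) (c : ℕ → ℂ) (Q : ℕ → ℝ) (χ : ℕ → Y → ℂ),
    (∀ i y, ‖χ i y‖ ≤ 1) ∧ ∀ (y : Y) (n : ℕ),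
      ‖f ((fun x => a * x)^[n] y) - ∑ i ∈ s, c i * χ i y * ee (Q i * (n : ℝ))‖ ≤ ε := by
  have h2 : f ∈ closure ((Submodule.span ℂ (chars Y) : Submodule ℂ C(Y, ℂ)) : Set C(Y, ℂ)) := by
    have h1 : f ∈ (Submodule.span ℂ (chars Y)).topologicalClosure := by
      rw [chars_dense]
      trivial
    exact h1
  rw [Metric.mem_closure_iff] at h2
  obtain ⟨g, hg, hd⟩ := h2 ε hε
  have h3 : ∃ (s : Finset ℕ) (c : ℕ → ℂ) (Q : ℕ → ℝ) (χ : ℕ → Y → ℂ), (∀ i y, ‖χ i y‖ ≤ 1) ∧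
      ∀ (y : Y) (n : ℕ), g ((fun x => a * x)^[n] y) = ∑ i ∈ s, c i * χ i y * ee (Q i * (n : ℝ)) := by
    have hg' : g ∈ Submodule.span ℂ (chars Y) := hg
    clear hd hg
    induction hg' using Submodule.span_induction with
    | mem g hg =>
      obtain ⟨χ, -, hχ⟩ := hg
      obtain ⟨θ, h5⟩ : ∃ θ : ℝ, (χ a : ℂ) = ee θ := by
        refine ⟨Complex.arg (χ a) / (2 * Real.pi), ?_⟩
        have h6 : (χ a : ℂ) = Complex.exp (Complex.arg (χ a) * Complex.I) := by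
          have h7 := Complex.norm_mul_exp_arg_mul_I (χ a : ℂ)
          rw [Circle.norm_coe, Complex.ofReal_one, one_mul] at h7
          exact h7.symm
        conv_lhs => rw [h6]
        unfold ee
        congr 1
        have h8 : (Real.pi : ℂ) ≠ 0 := by exact_mod_cast Real.pi_ne_zero
        push_cast
        field_simp
      refine ⟨{0}, fun _ => 1, fun _ => θ, fun _ y => (χ y : ℂ), fun _ y => (Circle.norm_coe _).le, fun y n => ?_⟩
      rw [sum_singleton, hχ, mul_left_iterate, one_mul]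
      show (χ (a ^ n * y) : ℂ) = _
      rw [map_mul, map_pow, Circle.coe_mul, Circle.coe_pow, mul_comm]
      congr 1
      rw [h5]
      unfold ee
      rw [← Complex.exp_nat_mul]
      congr 1
      push_cast
      ring
    | zero => exact ⟨∅, fun _ => 0, fun _ => 0, fun _ _ => 0, by simp, fun y n => by simp⟩
    | add g₁ g₂ _ _ ih₁ ih₂ =>
      obtain ⟨s₁, c₁, Q₁, χ₁, b₁, h₁⟩ := ih₁
      obtain ⟨s₂, c₂, Q₂, χ₂, b₂, h₂⟩ := ih₂
      refine ⟨s₁.image (fun i => 2 * i) ∪ s₂.image (fun i => 2 * i + 1),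
        fun i => if i % 2 = 0 then c₁ (i / 2) else c₂ (i / 2),
        fun i => if i % 2 = 0 then Q₁ (i / 2) else Q₂ (i / 2),
        fun i => if i % 2 = 0 then χ₁ (i / 2) else χ₂ (i / 2), fun i y => ?_, fun y n => ?_⟩
      · show ‖(if i % 2 = 0 then χ₁ (i / 2) else χ₂ (i / 2)) y‖ ≤ 1
        split_ifs
        · exact b₁ _ _
        · exact b₂ _ _
      have hdis : Disjoint (s₁.image (fun i => 2 * i)) (s₂.image (fun i => 2 * i + 1)) := by
        rw [Finset.disjoint_left]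
        intro a ha hb
        obtain ⟨i, -, hi⟩ := mem_image.1 ha
        obtain ⟨j, -, hj⟩ := mem_image.1 hb
        omega
      rw [sum_union hdis, sum_image (fun i _ j _ h => by simpa using h), sum_image (fun i _ j _ h => by simpa using h)]
      rw [ContinuousMap.add_apply, h₁ y n, h₂ y n]
      congr 1
      · refine sum_congr rfl fun i _ => ?_
        have e1 : (2 * i) % 2 = 0 := by omega
        have e2 : (2 * i) / 2 = i := by omega
        simp only [e1, e2, if_true]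
      · refine sum_congr rfl fun i _ => ?_
        have e1 : ¬ (2 * i + 1) % 2 = 0 := by omega
        have e2 : (2 * i + 1) / 2 = i := by omega
        simp only [e1, e2, if_false]
    | smul r g₁ _ ih₁ =>
      obtain ⟨s₁, c₁, Q₁, χ₁, b₁, h₁⟩ := ih₁
      refine ⟨s₁, fun i => r * c₁ i, Q₁, χ₁, b₁, fun y n => ?_⟩
      rw [ContinuousMap.smul_apply, h₁ y n, smul_eq_mul, mul_sum]
      refine sum_congr rfl fun i _ => ?_
      ring
  obtain ⟨s, c, Q, χ, hχ, h4⟩ := h3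
  refine ⟨s, c, Q, χ, hχ, fun y n => ?_⟩
  rw [← h4 y n]
  have h5 := (f - g).norm_coe_le_norm ((fun x => a * x)^[n] y)
  rw [dist_eq_norm] at hd
  exact h5.trans hd.le

/-- rotations are uniformly almost periodic -/
theorem UAP_rot (a : Y) (𝒴 : Set Y) (f : C(Y, ℂ)) : UAP {b | ∃ y ∈ 𝒴, b = fun n => f ((fun x => a * x)^[n] y)} := by
  apply UAP_fin
  intro ε hε
  obtain ⟨s, c, Q, χ, hχ, h1⟩ := trig a f ε hε
  refine ⟨s, ∑ i ∈ s, ‖c i‖, ?_⟩
  rintro _ ⟨y, _, rfl⟩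
  refine ⟨fun i => c i * χ i y, Q, sum_le_sum fun i _ => ?_, fun n => h1 y n⟩
  rw [norm_mul]
  calc ‖c i‖ * ‖χ i y‖ ≤ ‖c i‖ * 1 := mul_le_mul_of_nonneg_left (hχ i y) (norm_nonneg _)
    _ = _ := mul_one _

/-- geometric sums -/
lemma geom (q : ℝ) : ∃ C : ℝ, 0 ≤ C ∧ ∀ n H : ℕ,
    ‖∑ m ∈ range H, ee (q * ((n + m : ℕ) : ℝ)) - (if ee q = 1 then (H : ℂ) else 0)‖ ≤ C := by
  have hp : ∀ k : ℕ, ee (q * (k : ℝ)) = ee q ^ k := by
    intro k
    unfold ee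
    rw [← Complex.exp_nat_mul]
    congr 1
    push_cast
    ring
  by_cases h : ee q = 1
  · refine ⟨0, le_rfl, fun n H => ?_⟩
    rw [if_pos h]
    have : ∀ m ∈ range H, ee (q * ((n + m : ℕ) : ℝ)) = 1 := fun m _ => by rw [hp, h, one_pow]
    rw [sum_congr rfl this]
    simp
  · have h1 : ee q - 1 ≠ 0 := sub_ne_zero.2 h
    refine ⟨2 / ‖ee q - 1‖, by positivity, fun n H => ?_⟩
    rw [if_neg h, sub_zero]
    have e : ∑ m ∈ range H, ee (q * ((n + m : ℕ) : ℝ)) = ee q ^ n * ((ee q ^ H - 1) / (ee q - 1)) := by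
      rw [← geom_sum_eq h, mul_sum]
      refine sum_congr rfl fun m _ => ?_
      rw [hp, pow_add]
    rw [e, norm_mul, norm_pow, c_norm_ee, one_pow, one_mul, norm_div]
    apply div_le_div_of_nonneg_right _ (norm_nonneg _)
    refine (norm_sub_le _ _).trans ?_
    rw [norm_pow, c_norm_ee, one_pow, norm_one]
    norm_num

/-- mean zero along a rotation is uniform -/
theorem mean_unif (a : Y) (ψ : C(Y, ℝ)) (δ : ℝ) (hδ : 0 < δ) : ∃ H₀ : ℕ, ∀ H ≥ H₀, ∀ y : Y,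
    Tendsto (fun N : ℕ => (1 / (N : ℝ)) * ∑ n ∈ range N, ψ ((fun x => a * x)^[n] y)) atTop (𝓝 0) →
    ∀ n : ℕ, |∑ m ∈ range H, ψ ((fun x => a * x)^[n + m] y)| ≤ δ * H := by
  set f : C(Y, ℂ) := ⟨fun y => (ψ y : ℂ), Complex.continuous_ofReal.comp ψ.continuous⟩ with hf
  obtain ⟨s, c, Q, χ, hχ, h1⟩ := trig a f (δ / 4) (by positivity)
  choose C hC0 hC using geom
  set D : ℝ := ∑ i ∈ s, ‖c i‖ * C (Q i) with hD
  have hD0 : 0 ≤ D := sum_nonneg fun i _ => mul_nonneg (norm_nonneg _) (hC0 _)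
  set P : Y → ℂ := fun y => ∑ i ∈ s, c i * χ i y * (if ee (Q i) = 1 then 1 else 0) with hP
  -- sums of ψ are H * P + O(δ/4 H + D)
  have key : ∀ (y : Y) (n H : ℕ), ‖((∑ m ∈ range H, ψ ((fun x => a * x)^[n + m] y) : ℝ) : ℂ) - H * P y‖ ≤ δ / 4 * H + D := by
    intro y n H
    have e1 : ((∑ m ∈ range H, ψ ((fun x => a * x)^[n + m] y) : ℝ) : ℂ) - H * P y =
        ∑ m ∈ range H, (f ((fun x => a * x)^[n + m] y) - ∑ i ∈ s, c i * χ i y * ee (Q i * ((n + m : ℕ) : ℝ))) +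
        ∑ i ∈ s, c i * χ i y * (∑ m ∈ range H, ee (Q i * ((n + m : ℕ) : ℝ)) - (if ee (Q i) = 1 then (H : ℂ) else 0)) := by
      rw [sum_sub_distrib, sum_comm]
      have e2 : ∑ i ∈ s, c i * χ i y * (∑ m ∈ range H, ee (Q i * ((n + m : ℕ) : ℝ)) - (if ee (Q i) = 1 then (H : ℂ) else 0)) =
          ∑ i ∈ s, ∑ m ∈ range H, c i * χ i y * ee (Q i * ((n + m : ℕ) : ℝ)) - H * P y := by
        rw [hP, mul_sum, ← sum_sub_distrib]
        refine sum_congr rfl fun i _ => ?_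
        rw [mul_sub, mul_sum]
        congr 1
        split_ifs <;> ring
      rw [e2]
      push_cast
      have e3 : ∑ m ∈ range H, ((ψ ((fun x => a * x)^[n + m] y) : ℝ) : ℂ) = ∑ m ∈ range H, f ((fun x => a * x)^[n + m] y) := rfl
      rw [e3]
      ring
    rw [e1]
    refine (norm_add_le _ _).trans (add_le_add ?_ ?_)
    · refine (norm_sum_le _ _).trans ((sum_le_sum fun m _ => h1 y (n + m)).trans ?_)
      rw [sum_const, card_range, nsmul_eq_mul, mul_comm]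
    · refine (norm_sum_le _ _).trans (sum_le_sum fun i _ => ?_)
      rw [norm_mul, norm_mul]
      calc ‖c i‖ * ‖χ i y‖ * _ ≤ ‖c i‖ * 1 * C (Q i) := by
            apply mul_le_mul _ (hC (Q i) n H) (norm_nonneg _) (by positivity)
            exact mul_le_mul_of_nonneg_left (hχ i y) (norm_nonneg _)
        _ = _ := by ring
  obtain ⟨H₀, hH₀⟩ := exists_nat_ge (2 * D / δ)
  refine ⟨H₀, fun H hH y hy n => ?_⟩
  have hPy : ‖P y‖ ≤ δ / 4 := by
    apply le_of_forall_pos_le_add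
    intro η hη
    have h2 : Tendsto (fun N : ℕ => D / (N : ℝ)) atTop (𝓝 0) := tendsto_const_div_atTop_nhds_zero_nat D
    have h3 := (Metric.tendsto_nhds.1 hy (η / 2) (by positivity)).and
      ((Metric.tendsto_nhds.1 h2 (η / 2) (by positivity)).and (eventually_ge_atTop 1))
    obtain ⟨N, h4, h5, h6⟩ := h3.exists
    rw [Real.dist_eq, sub_zero] at h4 h5
    have hN0 : (0 : ℝ) < N := by exact_mod_cast h6
    have h7 := key y 0 N
    simp only [zero_add] at h7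
    have h8 : ‖(N : ℂ) * P y‖ ≤ |∑ n ∈ range N, ψ ((fun x => a * x)^[n] y)| + (δ / 4 * N + D) := by
      have h9 := norm_sub_norm_le ((N : ℂ) * P y) ((∑ m ∈ range N, ψ ((fun x => a * x)^[m] y) : ℝ) : ℂ)
      rw [norm_sub_rev, Complex.norm_real, Real.norm_eq_abs] at h9
      linarith
    rw [norm_mul, Complex.norm_natCast] at h8
    rw [abs_mul, abs_of_nonneg (by positivity : (0 : ℝ) ≤ 1 / N), one_div, inv_mul_lt_iff₀ hN0] at h4
    rw [abs_of_nonneg (by positivity), div_lt_iff₀ hN0] at h5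
    have h10 : (N : ℝ) * ‖P y‖ ≤ N * (δ / 4 + η) := by linarith
    exact le_of_mul_le_mul_left h10 hN0
  have h2 := key y n H
  have h3 : 2 * D / δ ≤ H := hH₀.trans (by exact_mod_cast hH)
  rw [div_le_iff₀ hδ] at h3
  have h4 := norm_sub_norm_le ((∑ m ∈ range H, ψ ((fun x => a * x)^[n + m] y) : ℝ) : ℂ) (H * P y)
  rw [Complex.norm_real, Real.norm_eq_abs, norm_mul, Complex.norm_natCast] at h4
  have h5 : (H : ℝ) * ‖P y‖ ≤ H * (δ / 4) := mul_le_mul_of_nonneg_left hPy (Nat.cast_nonneg H)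
  linarith

end rot

end

end Pool.Agent.R296.RE
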